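import Pool.Agent.H54.M7.Start
import Pool.Agent.H83.Lo.Inj
import Pool.Agent.H82.Q1.SLE

set_option autoImplicit false

/-! Convergence at the start of the chain, in the domain (3.7 of Q1_M7.md). -/

namespace Pool.Agent.H54.M7

open Complex Metric Set Filter Topology
open Pool.Agent.H83.Lo
open Pool.Agent.H82.Q1 (IsChart posArc negArc HH cHH)

/-- image of a closed set under a map with a limit at infinity -/
lemma compact_insert {H : Set ℂ} (hH : IsClosed H) {φ : ℂ → ℂ} (hφ : ContinuousOn φ H) {b : ℂ}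
    (hb : Tendsto φ (Bornology.cobounded ℂ ⊓ 𝓟 H) (𝓝 b)) : IsCompact (insert b (φ '' H)) := by
  rw [isCompact_iff_ultrafilter_le_nhds]
  intro f hf
  by_cases hfb : {b} ∈ f
  · refine ⟨b, mem_insert _ _, ?_⟩
    have : (f : Filter ℂ) ≤ 𝓟 {b} := le_principal_iff.2 hfb
    exact this.trans (by rw [principal_singleton]; exact pure_le_nhds b)
  · have himg : φ '' H ∈ f := by
      have h1 : {b} ∪ φ '' H ∈ f := by
        rw [singleton_union]
        exact le_principal_iff.1 hf
      exact (Ultrafilter.union_mem_iff.1 h1).resolve_left hfb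
    have hne : (comap φ f ⊓ 𝓟 H).NeBot := by
      rw [← Filter.map_neBot_iff φ, Filter.neBot_iff]
      intro h0
      rw [Filter.map_eq_bot_iff] at h0
      rw [inf_principal_eq_bot] at h0
      obtain ⟨t, ht, hts⟩ := mem_comap.1 h0
      have h2 : t ∩ φ '' H ∈ f := inter_mem ht himg
      obtain ⟨y, hy, x, hx, rfl⟩ := Ultrafilter.nonempty_of_mem h2
      exact hts hy hx
    set g := Ultrafilter.of (comap φ f ⊓ 𝓟 H) with hg
    have hg1 : (g : Filter ℂ) ≤ comap φ f ⊓ 𝓟 H := Ultrafilter.of_le _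
    have hgf : map φ (g : Filter ℂ) ≤ f := by
      rw [map_le_iff_le_comap]
      exact hg1.trans inf_le_left
    have hgf' : (f : Filter ℂ) = map φ (g : Filter ℂ) := by
      have : f = g.map φ := by
        symm
        exact Ultrafilter.coe_le_coe.1 hgf
      rw [this]; rfl
    have hgH : (g : Filter ℂ) ≤ 𝓟 H := hg1.trans inf_le_right
    by_cases hbd : ∃ R : ℝ, closedBall (0 : ℂ) R ∈ g
    · obtain ⟨R, hR⟩ := hbd
      have hK : IsCompact (closedBall (0 : ℂ) R ∩ H) := (isCompact_closedBall _ _).inter_right hH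
      obtain ⟨x, hx, hgx⟩ := hK.ultrafilter_le_nhds g
        (le_principal_iff.2 (inter_mem hR (le_principal_iff.1 hgH)))
      refine ⟨φ x, mem_insert_of_mem _ (mem_image_of_mem _ hx.2), ?_⟩
      rw [hgf']
      have : Tendsto φ (𝓝[H] x) (𝓝 (φ x)) := hφ x hx.2
      exact this.mono_left (le_inf hgx hgH)
    · refine ⟨b, mem_insert _ _, ?_⟩
      rw [hgf']
      apply hb.mono_left
      refine le_inf ?_ hgH
      push Not at hbd
      rw [← comap_norm_atTop, ← tendsto_iff_comap]
      rw [Filter.tendsto_atTop]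
      intro R
      have h1 : (closedBall (0 : ℂ) R)ᶜ ∈ g := Ultrafilter.compl_mem_iff_notMem.2 (hbd R)
      filter_upwards [h1] with x hx
      rw [mem_compl_iff, mem_closedBall_zero_iff, not_le] at hx
      exact hx.le

/-- a compact set disjoint from a closed set is at positive distance -/
lemma sep_pos {C P : Set ℂ} (hC : IsCompact C) (hP : IsClosed P) (hne : P.Nonempty)
    (hd : Disjoint C P) : ∃ δ > 0, ∀ x ∈ C, δ < infDist x P := by
  by_cases hCe : C.Nonempty
  · obtain ⟨x0, hx0, hmin⟩ := hC.exists_isMinOn hCe (continuous_infDist_pt P).continuousOn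
    have h1 : 0 < infDist x0 P := by
      rw [← hP.notMem_iff_infDist_pos hne]
      exact fun h => (disjoint_left.1 hd) hx0 h
    exact ⟨infDist x0 P / 2, half_pos h1, fun x hx => by
      have : infDist x0 P ≤ infDist x P := hmin hx
      linarith⟩
  · exact ⟨1, one_pos, fun x hx => (hCe ⟨x, hx⟩).elim⟩

section Chart

variable {D : Set ℂ} {a b : ℂ} {φ : ℂ → ℂ}

lemma HH_eq : HH = UH := rfl

lemma UH_sub_cHH : UH ⊆ cHH := fun z hz => by
  have : 0 < z.im := hz
  exact this.le

lemma isClosed_cHH : IsClosed cHH := isClosed_le continuous_const continuous_im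

lemma isCompact_posArc (h : IsChart D a b φ) : IsCompact (posArc φ b) := by
  have hsub : {z : ℂ | z.im = 0 ∧ 0 ≤ z.re} ⊆ cHH := fun z hz => hz.1.ge
  apply compact_insert
  · exact (isClosed_eq continuous_im continuous_const).inter
      (isClosed_le continuous_const continuous_re)
  · exact h.cont.mono hsub
  · exact h.infty.mono_left (inf_le_inf_left _ (principal_mono.2 hsub))

lemma isCompact_negArc (h : IsChart D a b φ) : IsCompact (negArc φ b) := by
  have hsub : {z : ℂ | z.im = 0 ∧ z.re ≤ 0} ⊆ cHH := fun z hz => hz.1.ge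
  apply compact_insert
  · exact (isClosed_eq continuous_im continuous_const).inter
      (isClosed_le continuous_re continuous_const)
  · exact h.cont.mono hsub
  · exact h.infty.mono_left (inf_le_inf_left _ (principal_mono.2 hsub))

/-- uniform separation in the chart -/
lemma chart_sep (h : IsChart D a b φ) {ε : ℝ} (hε : 0 < ε) :
    ∃ δ > 0, ∀ ζ ∈ cHH, ‖ζ‖ < 1 / ε →
      δ < dist (φ ζ) b ∧ (infDist (φ ζ) (posArc φ b) ≤ δ → ∃ r : ℝ, 0 ≤ r ∧ ‖ζ - r‖ ≤ ε) ∧
      (infDist (φ ζ) (negArc φ b) ≤ δ → ∃ r : ℝ, r ≤ 0 ∧ ‖ζ - r‖ ≤ ε) ∧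
      (dist (φ ζ) a ≤ δ → ‖ζ‖ ≤ ε) := by
  set B : Set ℂ := cHH ∩ closedBall 0 (1 / ε) with hB
  have hBc : IsCompact B := (isCompact_closedBall _ _).inter_left isClosed_cHH
  have hBφ : ContinuousOn φ B := h.cont.mono inter_subset_left
  have h0H : (0 : ℂ) ∈ cHH := by change (0 : ℝ) ≤ (0 : ℂ).im; simp
  -- distance to b
  obtain ⟨δ1, hδ1, h1⟩ := sep_pos (hBc.image_of_continuousOn hBφ) (isClosed_singleton (x := b))
    (singleton_nonempty b) (by
      rw [disjoint_singleton_right]
      rintro ⟨z, hz, hzb⟩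
      exact h.ne ⟨z, hz.1, hzb⟩)
  -- positive arc
  set C1 : Set ℂ := B ∩ {ζ | ∀ r : ℝ, 0 ≤ r → ε ≤ ‖ζ - r‖} with hC1
  have hC1c : IsCompact C1 := by
    apply hBc.inter_right
    have : {ζ : ℂ | ∀ r : ℝ, 0 ≤ r → ε ≤ ‖ζ - r‖} = ⋂ (r : ℝ) (_ : 0 ≤ r), {ζ : ℂ | ε ≤ ‖ζ - r‖} := by
      ext ζ; simp
    rw [this]
    exact isClosed_iInter fun r => isClosed_iInter fun _ =>
      isClosed_le continuous_const (continuous_id.sub continuous_const).norm
  obtain ⟨δ2, hδ2, h2⟩ := sep_pos (hC1c.image_of_continuousOn (hBφ.mono inter_subset_left))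
    (isCompact_posArc h).isClosed ⟨b, mem_insert _ _⟩ (by
      rw [disjoint_left]
      rintro _ ⟨z, hz, rfl⟩ hmem
      rcases mem_insert_iff.1 hmem with hb | ⟨w, hw, hwz⟩
      · exact h.ne ⟨z, hz.1.1, hb⟩
      · have hwH : w ∈ cHH := hw.1.ge
        have hwz' : w = z := h.inj hwH hz.1.1 hwz
        have h3 := hz.2 w.re hw.2
        have h4 : z - (w.re : ℂ) = 0 := by
          rw [← hwz']
          apply Complex.ext
          · simp
          · simp [hw.1]
        rw [h4, norm_zero] at h3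
        linarith)
  -- negative arc
  set C2 : Set ℂ := B ∩ {ζ | ∀ r : ℝ, r ≤ 0 → ε ≤ ‖ζ - r‖} with hC2
  have hC2c : IsCompact C2 := by
    apply hBc.inter_right
    have : {ζ : ℂ | ∀ r : ℝ, r ≤ 0 → ε ≤ ‖ζ - r‖} = ⋂ (r : ℝ) (_ : r ≤ 0), {ζ : ℂ | ε ≤ ‖ζ - r‖} := by
      ext ζ; simp
    rw [this]
    exact isClosed_iInter fun r => isClosed_iInter fun _ =>
      isClosed_le continuous_const (continuous_id.sub continuous_const).norm
  obtain ⟨δ3, hδ3, h3⟩ := sep_pos (hC2c.image_of_continuousOn (hBφ.mono inter_subset_left))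
    (isCompact_negArc h).isClosed ⟨b, mem_insert _ _⟩ (by
      rw [disjoint_left]
      rintro _ ⟨z, hz, rfl⟩ hmem
      rcases mem_insert_iff.1 hmem with hb | ⟨w, hw, hwz⟩
      · exact h.ne ⟨z, hz.1.1, hb⟩
      · have hwH : w ∈ cHH := hw.1.ge
        have hwz' : w = z := h.inj hwH hz.1.1 hwz
        have h3 := hz.2 w.re hw.2
        have h4 : z - (w.re : ℂ) = 0 := by
          rw [← hwz']
          apply Complex.ext
          · simp
          · simp [hw.1]
        rw [h4, norm_zero] at h3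
        linarith)
  -- the starting point
  set C3 : Set ℂ := B ∩ {ζ | ε ≤ ‖ζ‖} with hC3
  have hC3c : IsCompact C3 := hBc.inter_right (isClosed_le continuous_const continuous_norm)
  obtain ⟨δ4, hδ4, h4⟩ := sep_pos (hC3c.image_of_continuousOn (hBφ.mono inter_subset_left))
    (isClosed_singleton (x := a)) (singleton_nonempty a) (by
      rw [disjoint_singleton_right]
      rintro ⟨z, hz, hza⟩
      have : z = 0 := h.inj hz.1.1 h0H (by rw [hza, h.zero])
      have h5 : ε ≤ ‖z‖ := hz.2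
      rw [this, norm_zero] at h5
      linarith)
  refine ⟨min (min δ1 δ2) (min δ3 δ4), by positivity, fun ζ hζ hn => ?_⟩
  have hζB : ζ ∈ B := ⟨hζ, by rw [mem_closedBall_zero_iff]; exact hn.le⟩
  refine ⟨?_, ?_, ?_, ?_⟩
  · have := h1 _ (mem_image_of_mem φ hζB)
    rw [infDist_singleton] at this
    exact lt_of_le_of_lt ((min_le_left _ _).trans (min_le_left _ _)) this
  · intro hle
    by_contra hcon
    push Not at hcon
    have hm : ζ ∈ C1 := ⟨hζB, fun r hr => (hcon r hr).le⟩
    have := h2 _ (mem_image_of_mem φ hm)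
    exact absurd (this.trans_le hle) (not_lt.2 ((min_le_left _ _).trans (min_le_right _ _)))
  · intro hle
    by_contra hcon
    push Not at hcon
    have hm : ζ ∈ C2 := ⟨hζB, fun r hr => (hcon r hr).le⟩
    have := h3 _ (mem_image_of_mem φ hm)
    exact absurd (this.trans_le hle) (not_lt.2 ((min_le_right _ _).trans (min_le_left _ _)))
  · intro hle
    by_contra hcon
    have hm : ζ ∈ C3 := ⟨hζB, (not_le.1 hcon).le⟩
    have := h4 _ (mem_image_of_mem φ hm)
    rw [infDist_singleton] at this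
    exact absurd (this.trans_le hle) (not_lt.2 ((min_le_right _ _).trans (min_le_right _ _)))

/-- **The start** in the domain: the normalised maps, composed with the chart, converge to the
identity locally uniformly. -/
theorem start_chart (h : IsChart D a b φ) {ι : Type*} {l : Filter ι} {G : ι → Set ℂ}
    {Z : ι → ℂ → ℂ} (hGo : ∀ m, IsOpen (G m)) (hGc : ∀ m, IsCompact (closure (G m)))
    (hGD : ∀ m, closure (G m) ⊆ D)
    (hex : ∀ K : Set ℂ, IsCompact K → K ⊆ D → ∀ᶠ m in l, K ⊆ G m)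
    (hZ : ∀ m, DifferentiableOn ℂ (Z m) (G m)) (hm : ∀ m, MapsTo (Z m) (G m) UH)
    (hn : ∀ᶠ m in l, ‖Z m (φ I)‖ = 1)
    (hbd : ∀ ε > 0, ∀ᶠ m in l, ∀ ζ ∈ frontier (G m), dist ζ b ≤ ε ∨ dist ζ a ≤ ε ∨
      (infDist ζ (posArc φ b) ≤ ε ∧ Tendsto (fun w => arg (Z m w)) (𝓝[G m] ζ) (𝓝 0)) ∨
      (infDist ζ (negArc φ b) ≤ ε ∧ Tendsto (fun w => arg (Z m w)) (𝓝[G m] ζ) (𝓝 Real.pi))) :
    ∀ K : Set ℂ, IsCompact K → K ⊆ UH → ∀ ε > 0, ∀ᶠ m in l, ∀ z ∈ K, ‖Z m (φ z) - z‖ ≤ ε := by
  have hφc : ContinuousOn φ UH := h.cont.mono UH_sub_cHH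
  have hinj : InjOn φ UH := h.inj.mono UH_sub_cHH
  set U : ι → Set ℂ := fun m => UH ∩ φ ⁻¹' (G m) with hU
  have hUo : ∀ m, IsOpen (U m) := fun m => hφc.isOpen_inter_preimage isOpen_UH (hGo m)
  set ψ := Function.invFunOn φ UH with hψ
  have hψφ : ∀ z ∈ UH, ψ (φ z) = z := fun z hz => hinj.leftInvOn_invFunOn hz
  have hψD : ContinuousOn ψ D := by
    intro z hz
    rw [← h.image] at hz
    obtain ⟨w, hw, rfl⟩ := hz
    exact (continuousOn_inv isOpen_UH h.diff hinj hψφ hw).continuousWithinAt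
  have hCc : ∀ m, IsCompact (ψ '' closure (G m)) := fun m =>
    (hGc m).image_of_continuousOn (hψD.mono (hGD m))
  have hCU : ∀ m, ψ '' closure (G m) ⊆ UH := by
    rintro m _ ⟨z, hz, rfl⟩
    have := hGD m hz
    rw [← h.image] at this
    obtain ⟨w, hw, rfl⟩ := this
    rw [hψφ w hw]; exact hw
  have hUC : ∀ m, U m ⊆ ψ '' closure (G m) := by
    intro m z hz
    exact ⟨φ z, subset_closure hz.2, hψφ z hz.1⟩
  have hclC : ∀ m, closure (U m) ⊆ ψ '' closure (G m) := fun m =>
    closure_minimal (hUC m) (hCc m).isClosed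
  have hcl : ∀ m, closure (U m) ⊆ UH := fun m => (hclC m).trans (hCU m)
  have key := start_lim (l := l) (U := U) (f := fun m z => Z m (φ z)) hUo
    (fun m => (hCc m).isBounded.subset (hUC m)) hcl (by
      intro K hK hKU
      filter_upwards [hex (φ '' K) (hK.image_of_continuousOn (hφc.mono hKU)) (by
        rw [← h.image]; exact image_mono hKU)] with m hm' z hz
      exact ⟨hKU hz, hm' (mem_image_of_mem φ hz)⟩)
    (by
      intro m z hz
      have h1 : DifferentiableAt ℂ φ z := h.diff.differentiableAt (isOpen_UH.mem_nhds hz.1)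
      have h2 : DifferentiableAt ℂ (Z m) (φ z) := (hZ m).differentiableAt ((hGo m).mem_nhds hz.2)
      exact (h2.comp z h1).differentiableWithinAt)
    (fun m z hz => hm m hz.2) hn (by
      intro ε hε
      obtain ⟨δ, hδ, hsep⟩ := chart_sep h hε
      filter_upwards [hbd δ hδ] with m hm' ζ hζ hζn
      have hζU : ζ ∈ UH := hcl m (frontier_subset_closure hζ)
      have hζc : ContinuousAt φ ζ := hφc.continuousAt (isOpen_UH.mem_nhds hζU)
      have hcl' : φ ζ ∈ closure (G m) := by
        have h1 : ζ ∈ closure (U m) := frontier_subset_closure hζ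
        have h2 : φ ζ ∈ closure (φ '' U m) := by
          rw [mem_closure_iff_nhdsWithin_neBot] at h1 ⊢
          have h3 : Tendsto φ (𝓝[U m] ζ) (𝓝[φ '' U m] (φ ζ)) :=
            tendsto_nhdsWithin_of_tendsto_nhds_of_eventually_within _
              (hζc.tendsto.mono_left nhdsWithin_le_nhds)
              (by filter_upwards [self_mem_nhdsWithin] with w hw using mem_image_of_mem φ hw)
          exact h3.neBot
        refine closure_mono ?_ h2
        rintro _ ⟨z, hz, rfl⟩
        exact hz.2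
      have hfr : φ ζ ∈ frontier (G m) := by
        rw [(hGo m).frontier_eq]
        refine ⟨hcl', fun hG => ?_⟩
        have : ζ ∈ U m := ⟨hζU, hG⟩
        rw [(hUo m).frontier_eq] at hζ
        exact hζ.2 this
      have hten : Tendsto φ (𝓝[U m] ζ) (𝓝[G m] (φ ζ)) :=
        tendsto_nhdsWithin_of_tendsto_nhds_of_eventually_within _
          (hζc.tendsto.mono_left nhdsWithin_le_nhds)
          (by filter_upwards [self_mem_nhdsWithin] with w hw using hw.2)
      obtain ⟨s1, s2, s3, s4⟩ := hsep ζ (UH_sub_cHH hζU) hζn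
      rcases hm' (φ ζ) hfr with hb | ha | ⟨hp, hpt⟩ | ⟨hp, hpt⟩
      · exact absurd hb (not_le.2 s1)
      · have h5 := s4 ha
        exact ⟨Or.inl ⟨0, le_rfl, by simpa using h5⟩, Or.inl ⟨0, le_rfl, by simpa using h5⟩⟩
      · exact ⟨Or.inr (hpt.comp hten), Or.inl (s2 hp)⟩
      · exact ⟨Or.inl (s3 hp), Or.inr (hpt.comp hten)⟩)
  exact key

end Chart

end Pool.Agent.H54.M7
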