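import Mathlib
import Pool.Agent.H83.Lo.Inj
import Pool.Agent.H83.Lo.Julia
import Pool.Agent.H91.M7.ExtDisc

set_option autoImplicit false
open Set Filter Topology Metric

/-! # J17, disc part

* `near_rot`: a conformal map of a large part of the disc onto the disc is almost a rotation.
* `mb w0`: the conformal map of the upper half plane onto the disc with `w0 ↦ 0`, `∞ ↦ 1`. -/

namespace Pool.Agent.H54.M7.KC

open Pool.Agent.H83.Lo (UH)
open scoped Real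

/-- Maps of almost the full disc onto the disc are almost rotations. -/
lemma near_rot {U : Set ℂ} {h : ℂ → ℂ} {ρ : ℝ} (hρ0 : 0 < ρ) (hρ1 : ρ < 1)
    (hU : IsOpen U) (hU1 : U ⊆ ball 0 1) (hUρ : ball 0 ρ ⊆ U)
    (hd : DifferentiableOn ℂ h U) (hb : BijOn h U (ball 0 1)) (h0 : h 0 = 0) :
    ‖deriv h 0‖ ≤ ρ⁻¹ ∧ ∀ z ∈ ball (0:ℂ) ρ,
      ‖h z - deriv h 0 * z‖ ≤ ρ⁻¹ * (2 * (ρ⁻¹ - 1) * (‖z‖ / ρ) / (1 - ‖z‖ / ρ)) := by
  set q : ℂ → ℂ := dslope h 0 with hq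
  have hM : 1 < ρ⁻¹ := (one_lt_inv₀ hρ0).2 hρ1
  have hdρ := hd.mono hUρ
  have h0U : (0:ℂ) ∈ U := hUρ (mem_ball_self hρ0)
  have hmaps : MapsTo h (ball 0 ρ) (closedBall (h 0) 1) := by
    rw [h0]; exact fun z hz => ball_subset_closedBall (hb.mapsTo (hUρ hz))
  have hqd : DifferentiableOn ℂ q (ball 0 ρ) :=
    (Complex.differentiableOn_dslope (ball_mem_nhds _ hρ0)).2 hdρ
  have hq2 : ∀ z ∈ ball (0:ℂ) ρ, ‖q z‖ ≤ ρ⁻¹ := fun z hz => by
    rw [← one_div]; exact Complex.norm_dslope_le_div_of_mapsTo_ball hdρ hmaps hz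
  have hc : q 0 = deriv h 0 := dslope_same h 0
  have hqz : ∀ z : ℂ, h z = q z * z := by
    intro z
    have h1 := sub_smul_dslope h 0 z
    rw [h0, sub_zero, sub_zero, smul_eq_mul] at h1
    rw [← h1, mul_comm]
  -- lower bound
  set f := Function.invFunOn h U with hf
  have hfh : ∀ z ∈ U, f (h z) = z := fun z hz => hb.injOn.leftInvOn_invFunOn hz
  have hfd : DifferentiableOn ℂ f (ball 0 1) := by
    rw [← hb.image_eq]; exact Pool.Agent.H83.Lo.differentiableOn_inv hU hd hb.injOn hfh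
  have hf0 : f 0 = 0 := by
    have := hfh 0 h0U
    rwa [h0] at this
  have hfm : MapsTo f (ball 0 1) (closedBall 0 1) := by
    intro w hw
    rw [← hb.image_eq] at hw
    obtain ⟨z, hz, rfl⟩ := hw
    rw [hfh z hz]
    exact ball_subset_closedBall (hU1 hz)
  have hlow : ∀ z ∈ U, ‖z‖ ≤ ‖h z‖ := by
    intro z hz
    have h1 : ‖f (h z)‖ ≤ ‖h z‖ :=
      Complex.norm_le_norm_of_mapsTo_ball hfd hfm hf0 (by simpa using hb.mapsTo hz)
    rwa [hfh z hz] at h1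
  have hq1 : ∀ z ∈ ball (0:ℂ) ρ, z ≠ 0 → 1 ≤ ‖q z‖ := by
    intro z hz hz0
    have h1 := hlow z (hUρ hz)
    rw [hqz z, norm_mul] at h1
    have h2 : 0 < ‖z‖ := norm_pos_iff.2 hz0
    by_contra hcon
    rw [not_le] at hcon
    nlinarith
  have hq10 : 1 ≤ ‖q 0‖ := by
    have hcont : ContinuousAt q 0 :=
      (hqd.continuousOn).continuousAt (ball_mem_nhds _ hρ0)
    have h1 : Tendsto (fun z => ‖q z‖) (𝓝[≠] (0:ℂ)) (𝓝 ‖q 0‖) :=
      hcont.norm.tendsto.mono_left nhdsWithin_le_nhds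
    refine ge_of_tendsto h1 ?_
    have h2 : ∀ᶠ z in 𝓝[≠] (0:ℂ), z ∈ ball (0:ℂ) ρ :=
      nhdsWithin_le_nhds (ball_mem_nhds _ hρ0)
    filter_upwards [h2, self_mem_nhdsWithin] with z hz hz0
    exact hq1 z hz hz0
  set c := q 0 with hcdef
  have hc0 : c ≠ 0 := by
    intro h; rw [h, norm_zero] at hq10; linarith
  set u : ℂ → ℂ := fun z => q z / c with hu
  have hu1 : ∀ z ∈ ball (0:ℂ) ρ, ‖u z‖ ≤ ρ⁻¹ := by
    intro z hz
    rw [hu]
    simp only [norm_div]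
    rw [div_le_iff₀ (by linarith)]
    have := hq2 z hz
    nlinarith
  have hu0 : u 0 = 1 := div_self hc0
  have hud : DifferentiableOn ℂ u (ball 0 ρ) := hqd.div_const c
  set P : ℂ → ℂ := fun z => (1 - u z) / (2 * (ρ⁻¹ : ℝ) - 1 - u z) with hP
  have hden : ∀ z ∈ ball (0:ℂ) ρ, (2 * (ρ⁻¹ : ℝ) - 1 - u z : ℂ) ≠ 0 := by
    intro z hz h
    have h1 := congrArg Complex.re h
    have h2 := (Complex.abs_re_le_norm (u z)).trans (hu1 z hz)
    rw [abs_le] at h2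
    simp only [Complex.sub_re, Complex.mul_re, Complex.re_ofNat, Complex.ofReal_re,
      Complex.im_ofNat, Complex.ofReal_im, Complex.one_re, Complex.zero_re] at h1
    linarith [h2.2]
  have hPd : DifferentiableOn ℂ P (ball 0 ρ) := by
    refine DifferentiableOn.div ?_ ?_ hden
    · exact (differentiableOn_const _).sub hud
    · exact (differentiableOn_const _).sub hud
  have hP0 : P 0 = 0 := by
    simp only [hP, hu0, sub_self, zero_div]
  have hPm : MapsTo P (ball 0 ρ) (closedBall (P 0) 1) := by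
    intro z hz
    rw [hP0, mem_closedBall_zero_iff]
    simp only [hP, norm_div]
    rw [div_le_one (norm_pos_iff.2 (hden z hz))]
    have h2 := (Complex.abs_re_le_norm (u z)).trans (hu1 z hz)
    rw [abs_le] at h2
    rw [← pow_le_pow_iff_left₀ (norm_nonneg _) (norm_nonneg _) two_ne_zero, Complex.sq_norm,
      Complex.sq_norm, Complex.normSq_apply, Complex.normSq_apply]
    simp only [Complex.sub_re, Complex.mul_re, Complex.re_ofNat, Complex.ofReal_re,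
      Complex.im_ofNat, Complex.ofReal_im, Complex.one_re, Complex.sub_im, Complex.one_im,
      Complex.mul_im]
    nlinarith [h2.2, hM]
  refine ⟨by rw [← hc]; exact hq2 0 (mem_ball_self hρ0), fun z hz => ?_⟩
  have hPz := Complex.dist_le_div_mul_dist_of_mapsTo_ball hPd hPm hz
  rw [hP0, dist_zero_right, dist_zero_right] at hPz
  set t : ℝ := ‖z‖ / ρ with ht
  have ht1 : t < 1 := by
    rw [ht, div_lt_one hρ0]; simpa using hz
  have ht0 : 0 ≤ t := by positivity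
  have hPt : ‖P z‖ ≤ t := by rw [ht]; calc _ ≤ _ := hPz
                                _ = _ := by ring
  have hv : 1 - u z = P z * (2 * ((ρ⁻¹ : ℝ) - 1) + (1 - u z)) := by
    simp only [hP]
    have h3 := hden z hz
    have h4 : (2 * ((ρ⁻¹ : ℝ) - 1) + (1 - u z) : ℂ) = 2 * (ρ⁻¹ : ℝ) - 1 - u z := by ring
    rw [h4, div_mul_cancel₀ _ h3]
  have hvn : ‖1 - u z‖ ≤ t * (2 * (ρ⁻¹ - 1) + ‖1 - u z‖) := by
    calc ‖1 - u z‖ = ‖P z‖ * ‖(2 * ((ρ⁻¹ : ℝ) - 1) + (1 - u z) : ℂ)‖ := by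
          rw [← norm_mul, ← hv]
      _ ≤ t * (2 * (ρ⁻¹ - 1) + ‖1 - u z‖) := by
          refine mul_le_mul hPt ((norm_add_le _ _).trans ?_) (norm_nonneg _) ht0
          have h5 : ‖(2 * ((ρ⁻¹ : ℝ) - 1) : ℂ)‖ = 2 * (ρ⁻¹ - 1) := by
            have h6 : (2 * ((ρ⁻¹ : ℝ) - 1) : ℂ) = ((2 * (ρ⁻¹ - 1) : ℝ) : ℂ) := by push_cast; ring
            rw [h6, Complex.norm_real, Real.norm_of_nonneg (by linarith)]
          rw [h5]
  have hv1 : ‖1 - u z‖ ≤ 2 * (ρ⁻¹ - 1) * t / (1 - t) := by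
    rw [le_div_iff₀ (by linarith)]
    nlinarith
  have hE0 : 0 ≤ 2 * (ρ⁻¹ - 1) * t / (1 - t) :=
    div_nonneg (mul_nonneg (by linarith) ht0) (by linarith)
  have hfin : h z - deriv h 0 * z = - (c * z * (1 - u z)) := by
    rw [← hc, hqz z]
    have h7 : q z = c * u z := by
      simp only [hu]; field_simp
    rw [h7]; ring
  rw [hfin, norm_neg, norm_mul, norm_mul]
  have hz1 : ‖z‖ ≤ 1 := by
    have : ‖z‖ < ρ := by simpa using hz
    linarith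
  have hcc : ‖c‖ ≤ ρ⁻¹ := hq2 0 (mem_ball_self hρ0)
  calc ‖c‖ * ‖z‖ * ‖1 - u z‖ ≤ (ρ⁻¹ * 1) * (2 * (ρ⁻¹ - 1) * t / (1 - t)) := by
        gcongr
    _ = ρ⁻¹ * (2 * (ρ⁻¹ - 1) * t / (1 - t)) := by ring

/-- The error of `near_rot` tends to zero. -/
lemma exists_rho {r ε : ℝ} (hr : r < 1) (hε : 0 < ε) :
    ∃ ρ0 : ℝ, 0 < ρ0 ∧ ρ0 < 1 ∧ r < ρ0 ∧ ρ0⁻¹ ≤ 2 ∧ ∀ t : ℝ, 0 ≤ t → t ≤ r →
      ρ0⁻¹ * (2 * (ρ0⁻¹ - 1) * (t / ρ0) / (1 - t / ρ0)) ≤ ε := by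
  -- it is enough to bound at a fixed radius
  set r' : ℝ := max r 0 with hr'
  have hr'1 : r' < 1 := max_lt hr one_pos
  have hr'0 : 0 ≤ r' := le_max_right _ _
  have hcont : Tendsto (fun ρ : ℝ => ρ⁻¹ * (2 * (ρ⁻¹ - 1) * (r' / ρ) / (1 - r' / ρ))) (𝓝[<] 1)
      (𝓝 ((1:ℝ)⁻¹ * (2 * ((1:ℝ)⁻¹ - 1) * (r' / 1) / (1 - r' / 1)))) := by
    have h1 : Tendsto (fun ρ : ℝ => ρ⁻¹) (𝓝[<] 1) (𝓝 (1:ℝ)⁻¹) :=
      (tendsto_inv₀ one_ne_zero).mono_left nhdsWithin_le_nhds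
    have h2 : Tendsto (fun ρ : ℝ => r' / ρ) (𝓝[<] 1) (𝓝 (r' / 1)) := by
      simpa [div_eq_mul_inv] using h1.const_mul r'
    refine h1.mul (((h1.sub_const 1).const_mul 2 |>.mul h2).div (h2.const_sub 1) ?_)
    rw [div_one]; linarith
  have h3 : ((1:ℝ)⁻¹ * (2 * ((1:ℝ)⁻¹ - 1) * (r' / 1) / (1 - r' / 1))) = 0 := by norm_num
  rw [h3] at hcont
  have e1 : ∀ᶠ ρ : ℝ in 𝓝[<] 1, ρ⁻¹ * (2 * (ρ⁻¹ - 1) * (r' / ρ) / (1 - r' / ρ)) < ε :=
    hcont.eventually (gt_mem_nhds hε)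
  have e2 : ∀ᶠ ρ : ℝ in 𝓝[<] 1, ρ ∈ Ioo (max r' (1/2)) 1 :=
    Ioo_mem_nhdsLT (max_lt hr'1 (by norm_num))
  obtain ⟨ρ, h4, h5⟩ := (e1.and e2).exists
  have h6 : r' < ρ := (le_max_left _ _).trans_lt h5.1
  have h7 : 1 / 2 < ρ := (le_max_right _ _).trans_lt h5.1
  have h8 : 0 < ρ := by linarith
  refine ⟨ρ, h8, h5.2, (le_max_left _ _).trans_lt h6, ?_, fun t ht0 htr => ?_⟩
  · rw [inv_le_comm₀ h8 (by norm_num)]; linarith
  · refine le_trans ?_ h4.le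
    have h9 : t ≤ r' := htr.trans (le_max_left _ _)
    have h10 : r' / ρ < 1 := (div_lt_one h8).2 h6
    have h11 : 0 ≤ 2 * (ρ⁻¹ - 1) := by
      have : 1 ≤ ρ⁻¹ := (one_le_inv₀ h8).2 h5.2.le
      linarith
    gcongr

/-! ### The Moebius map -/

/-- The conformal map of the upper half plane onto the disc with `w0 ↦ 0`, `∞ ↦ 1`. -/
noncomputable def mb (w0 w : ℂ) : ℂ := (w - w0) / (w - (starRingEnd ℂ) w0)

/-- Its inverse. -/
noncomputable def mbi (w0 ζ : ℂ) : ℂ := (w0 - (starRingEnd ℂ) w0 * ζ) / (1 - ζ)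

lemma den_ne {w0 w : ℂ} (h0 : w0 ∈ UH) (hw : 0 ≤ w.im) : w - (starRingEnd ℂ) w0 ≠ 0 := by
  intro h
  have h1 := congrArg Complex.im h
  simp only [Complex.sub_im, Complex.conj_im, Complex.zero_im] at h1
  have h2 : 0 < w0.im := h0
  linarith

lemma mb_self (w0 : ℂ) : mb w0 w0 = 0 := by simp [mb]

lemma one_sub_ne {ζ : ℂ} (h : ζ ∈ ball (0:ℂ) 1) : (1 - ζ : ℂ) ≠ 0 := by
  intro h1
  have h2 : ζ = 1 := (sub_eq_zero.1 h1).symm
  rw [h2, mem_ball_zero_iff, norm_one] at h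
  exact lt_irrefl _ h

lemma mb_mem {w0 w : ℂ} (h0 : w0 ∈ UH) (hw : w ∈ UH) : mb w0 w ∈ ball (0:ℂ) 1 := by
  have h1 : 0 < w0.im := h0
  have h2 : 0 < w.im := hw
  rw [mem_ball_zero_iff, mb, norm_div, div_lt_one (norm_pos_iff.2 (den_ne h0 h2.le)),
    ← pow_lt_pow_iff_left₀ (norm_nonneg _) (norm_nonneg _) two_ne_zero, Complex.sq_norm,
    Complex.sq_norm, Complex.normSq_apply, Complex.normSq_apply]
  simp only [Complex.sub_re, Complex.sub_im, Complex.conj_re, Complex.conj_im]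
  nlinarith [mul_pos h1 h2]

lemma mbi_mem {w0 ζ : ℂ} (h0 : w0 ∈ UH) (hζ : ζ ∈ ball (0:ℂ) 1) : mbi w0 ζ ∈ UH := by
  have h1 : 0 < w0.im := h0
  have h2 := one_sub_ne hζ
  have h3 : 0 < Complex.normSq (1 - ζ) := Complex.normSq_pos.2 h2
  have h4 : Complex.normSq ζ < 1 := by
    rw [mem_ball_zero_iff] at hζ
    rw [← Complex.sq_norm]
    exact pow_lt_one₀ (norm_nonneg _) hζ two_ne_zero
  change 0 < (mbi w0 ζ).im
  rw [mbi, Complex.div_im]
  rw [Complex.normSq_apply] at h4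
  have h5 : (w0 - (starRingEnd ℂ) w0 * ζ).im * (1 - ζ).re - (w0 - (starRingEnd ℂ) w0 * ζ).re *
      (1 - ζ).im = w0.im * (1 - (ζ.re * ζ.re + ζ.im * ζ.im)) := by
    simp only [Complex.sub_re, Complex.sub_im, Complex.mul_re, Complex.mul_im, Complex.conj_re,
      Complex.conj_im, Complex.one_re, Complex.one_im]
    ring
  rw [← sub_div, h5]
  exact div_pos (mul_pos h1 (by linarith)) h3

lemma mb_mbi {w0 ζ : ℂ} (h0 : w0 ∈ UH) (hζ : ζ ∈ ball (0:ℂ) 1) : mb w0 (mbi w0 ζ) = ζ := by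
  have h2 := one_sub_ne hζ
  have h3 : w0 - (starRingEnd ℂ) w0 ≠ 0 := den_ne h0 (le_of_lt h0)
  have h4 : mbi w0 ζ - w0 = (w0 - (starRingEnd ℂ) w0) * ζ / (1 - ζ) := by
    rw [mbi]; field_simp; ring
  have h5 : mbi w0 ζ - (starRingEnd ℂ) w0 = (w0 - (starRingEnd ℂ) w0) / (1 - ζ) := by
    rw [mbi]; field_simp; ring
  rw [mb, h4, h5]
  field_simp

lemma mbi_mb {w0 w : ℂ} (h0 : w0 ∈ UH) (hw : 0 ≤ w.im) : mbi w0 (mb w0 w) = w := by
  have h2 := den_ne h0 hw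
  have h3 : w0 - (starRingEnd ℂ) w0 ≠ 0 := den_ne h0 (le_of_lt h0)
  have h4 : 1 - mb w0 w = (w0 - (starRingEnd ℂ) w0) / (w - (starRingEnd ℂ) w0) := by
    rw [mb]; field_simp; ring
  have h5 : w0 - (starRingEnd ℂ) w0 * mb w0 w =
      w * (w0 - (starRingEnd ℂ) w0) / (w - (starRingEnd ℂ) w0) := by
    rw [mb]; field_simp; ring
  rw [mbi, h4, h5]
  field_simp

lemma bijOn_mb {w0 : ℂ} (h0 : w0 ∈ UH) : BijOn (mb w0) UH (ball 0 1) :=
  ⟨fun _ hw => mb_mem h0 hw,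
   fun w hw w' hw' h => by
     rw [← mbi_mb h0 (le_of_lt hw), h, mbi_mb h0 (le_of_lt hw')],
   fun ζ hζ => ⟨mbi w0 ζ, mbi_mem h0 hζ, mb_mbi h0 hζ⟩⟩

lemma bijOn_mbi {w0 : ℂ} (h0 : w0 ∈ UH) : BijOn (mbi w0) (ball 0 1) UH :=
  ⟨fun _ hw => mbi_mem h0 hw,
   fun w hw w' hw' h => by rw [← mb_mbi h0 hw, h, mb_mbi h0 hw'],
   fun w hw => ⟨mb w0 w, mb_mem h0 hw, mbi_mb h0 (le_of_lt hw)⟩⟩

lemma diff_mb {w0 w : ℂ} (h0 : w0 ∈ UH) (hw : 0 ≤ w.im) : DifferentiableAt ℂ (mb w0) w := by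
  refine DifferentiableAt.div ?_ ?_ (den_ne h0 hw)
  · exact differentiableAt_id.sub_const w0
  · exact differentiableAt_id.sub_const _

lemma diff_mbi (w0 : ℂ) : DifferentiableOn ℂ (mbi w0) (ball 0 1) := by
  refine DifferentiableOn.div ?_ ?_ fun ζ hζ => one_sub_ne hζ
  · exact (differentiableOn_const _).sub ((differentiableOn_const _).mul differentiableOn_id)
  · exact (differentiableOn_const _).sub differentiableOn_id

/-! ### Comparison in the upper half plane -/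

/-- `|ci w' - ci w|` -/
lemma mbi_near {r ε : ℝ} (hr : r < 1) {w w' : ℂ} (hw : ‖w‖ ≤ r) (hε : ‖w' - w‖ ≤ ε)
    (hε1 : ε ≤ (1 - r) / 2) :
    ‖mbi Complex.I w' - mbi Complex.I w‖ ≤ 4 * ε / (1 - r) ^ 2 := by
  have h1 : 1 - r ≤ ‖1 - w‖ := by
    have := norm_sub_norm_le (1:ℂ) w
    rw [norm_one] at this
    linarith
  have h2 : (1 - r) / 2 ≤ ‖1 - w'‖ := by
    have h3 := norm_sub_norm_le (1 - w) (w' - w)
    have h4 : (1 - w) - (w' - w) = 1 - w' := by ring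
    rw [h4] at h3
    linarith
  have h5 : (1 - w : ℂ) ≠ 0 := norm_pos_iff.1 (by linarith)
  have h6 : (1 - w' : ℂ) ≠ 0 := norm_pos_iff.1 (by linarith)
  have h7 : mbi Complex.I w' - mbi Complex.I w =
      2 * Complex.I * (w' - w) / ((1 - w') * (1 - w)) := by
    rw [mbi, mbi, Complex.conj_I]
    field_simp
    ring
  rw [h7, norm_div, norm_mul, norm_mul, norm_mul, Complex.norm_I, Complex.norm_ofNat]
  rw [div_le_div_iff₀ (mul_pos (by linarith) (by linarith)) (by nlinarith)]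
  have h8 : (1 - r) / 2 * (1 - r) ≤ ‖1 - w'‖ * ‖1 - w‖ :=
    mul_le_mul h2 h1 (by linarith) (norm_nonneg _)
  have h9 : 0 ≤ ‖w' - w‖ := norm_nonneg _
  calc 2 * 1 * ‖w' - w‖ * (1 - r) ^ 2 ≤ 2 * 1 * ε * (1 - r) ^ 2 := by gcongr
    _ = 4 * ε * ((1 - r) / 2 * (1 - r)) := by ring
    _ ≤ 4 * ε * (‖1 - w'‖ * ‖1 - w‖) := by
        refine mul_le_mul_of_nonneg_left h8 ?_
        linarith

/-- the tip -/
lemma tip_near {w0 : ℂ} (h0 : w0 ∈ UH) {W ε : ℝ} (hε1 : ε ≤ 1)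
    (h : ‖mb w0 (W : ℂ) + 1‖ ≤ ε) : |(W - w0.re) / w0.im| ≤ ε := by
  have h1 : 0 < w0.im := h0
  have hW : (0:ℝ) ≤ (W : ℂ).im := by simp
  have h2 := den_ne h0 hW
  set V : ℝ := (W - w0.re) / w0.im with hV
  have h3 : mb w0 (W : ℂ) + 1 = 2 * ((V : ℝ) : ℂ) * (w0.im : ℂ) / (W - (starRingEnd ℂ) w0) := by
    rw [mb, hV]
    have h4 : (w0.im : ℂ) ≠ 0 := by exact_mod_cast h1.ne'
    push_cast
    rw [div_add_one h2]
    congr 1
    field_simp
    apply Complex.ext <;> simp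
    ring
  have h5 : (W : ℂ) - (starRingEnd ℂ) w0 = (w0.im : ℂ) * ((V : ℂ) + Complex.I) := by
    rw [hV]
    have h4 : (w0.im : ℂ) ≠ 0 := by exact_mod_cast h1.ne'
    push_cast
    rw [mul_add, mul_div_cancel₀ _ h4]
    apply Complex.ext <;> simp
  rw [h3, h5, norm_div, norm_mul, norm_mul, norm_mul, Complex.norm_ofNat, Complex.norm_real,
    Complex.norm_real, Real.norm_eq_abs, Real.norm_of_nonneg h1.le] at h
  have h6 : ‖(V : ℂ) + Complex.I‖ ≤ |V| + 1 := by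
    refine (norm_add_le _ _).trans ?_
    rw [Complex.norm_real, Complex.norm_I, Real.norm_eq_abs]
  have h7 : 0 < ‖(V : ℂ) + Complex.I‖ := by
    rw [norm_pos_iff]
    intro h8
    have := congrArg Complex.im h8
    simp at this
  have h9 : 2 * |V| * w0.im / (w0.im * ‖(V : ℂ) + Complex.I‖) = 2 * |V| / ‖(V : ℂ) + Complex.I‖ := by
    field_simp
  rw [h9, div_le_iff₀ h7] at h
  have h10 : 0 ≤ |V| := abs_nonneg _
  have hε0 : 0 ≤ ε := by
    by_contra hcon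
    rw [not_le] at hcon
    nlinarith
  nlinarith

/-- final normalisation -/
lemma fin_near {w0 w z : ℂ} (h0 : w0 ∈ UH) {W δ η : ℝ} (hF : ‖mbi Complex.I (mb w0 w) - z‖ ≤ δ)
    (hw : 0 ≤ w.im) (hV : |(W - w0.re) / w0.im| ≤ η) :
    ‖((‖w0 - W‖⁻¹ : ℝ) : ℂ) * (w - W) - z‖ ≤ δ + η * (1 + ‖z‖) := by
  have h1 : 0 < w0.im := h0
  have h4 : (w0.im : ℂ) ≠ 0 := by exact_mod_cast h1.ne'
  set V : ℝ := (W - w0.re) / w0.im with hVd
  set F : ℂ := (w - w0.re) / w0.im with hFd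
  have hFeq : mbi Complex.I (mb w0 w) = F := by
    have h2 := den_ne h0 hw
    have h3 : w0 - (starRingEnd ℂ) w0 ≠ 0 := den_ne h0 (le_of_lt h0)
    have h5 : 1 - mb w0 w = (w0 - (starRingEnd ℂ) w0) / (w - (starRingEnd ℂ) w0) := by
      rw [mb]; field_simp; ring
    rw [mbi, h5, Complex.conj_I, hFd]
    have h6 : w0 - (starRingEnd ℂ) w0 = 2 * Complex.I * w0.im := by
      apply Complex.ext <;> simp
      ring
    have h7 : (Complex.I - -Complex.I * mb w0 w) = Complex.I * (2 * (w - w0.re)) /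
        (w - (starRingEnd ℂ) w0) := by
      rw [mb]
      field_simp
      have h8 : w0 + (starRingEnd ℂ) w0 = 2 * w0.re := by
        apply Complex.ext <;> simp
        ring
      linear_combination (-1 : ℂ) * h8
    rw [h7, h6]
    have hI := Complex.I_ne_zero
    field_simp
  rw [hFeq] at hF
  have h5 : w - W = (w0.im : ℂ) * (F - V) := by
    rw [hFd, hVd]; push_cast; field_simp; ring
  have h6 : w0 - W = (w0.im : ℂ) * (Complex.I - V) := by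
    rw [hVd]; push_cast
    rw [mul_sub, mul_div_cancel₀ _ h4]
    apply Complex.ext <;> simp
  set s : ℝ := ‖Complex.I - (V:ℂ)‖ with hs
  have hs1 : 1 ≤ s := by
    have h7 := Complex.abs_im_le_norm (Complex.I - (V:ℂ))
    simpa using h7
  have hs2 : s ≤ 1 + |V| := by
    rw [hs]
    refine (norm_sub_le _ _).trans ?_
    rw [Complex.norm_I, Complex.norm_real, Real.norm_eq_abs]
  rw [h5, h6, norm_mul, Complex.norm_real, Real.norm_of_nonneg h1.le, ← hs]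
  have h7 : (((w0.im * s)⁻¹ : ℝ) : ℂ) * ((w0.im : ℂ) * (F - V)) - z =
      ((s⁻¹ : ℝ) : ℂ) * ((F - z) - V) + ((s⁻¹ - 1 : ℝ) : ℂ) * z := by
    have hs3 : (s : ℂ) ≠ 0 := by
      have : s ≠ 0 := by linarith
      exact_mod_cast this
    push_cast
    field_simp
    ring
  rw [h7]
  have h8 : s⁻¹ ≤ 1 := inv_le_one_of_one_le₀ hs1
  have h9 : 0 ≤ s⁻¹ := by positivity
  have h10 : |s⁻¹ - 1| ≤ |V| := by
    rw [abs_sub_comm, abs_of_nonneg (by linarith)]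
    have h11 : 1 - s⁻¹ = (s - 1) * s⁻¹ := by field_simp
    rw [h11]
    nlinarith [abs_nonneg V]
  calc _ ≤ ‖((s⁻¹ : ℝ) : ℂ) * ((F - z) - V)‖ + ‖((s⁻¹ - 1 : ℝ) : ℂ) * z‖ := norm_add_le _ _
    _ ≤ 1 * (δ + η) + η * ‖z‖ := by
        rw [norm_mul, norm_mul, Complex.norm_real, Complex.norm_real, Real.norm_of_nonneg h9,
          Real.norm_eq_abs]
        refine add_le_add (mul_le_mul h8 ?_ (norm_nonneg _) zero_le_one)
          (mul_le_mul_of_nonneg_right (h10.trans hV) (norm_nonneg _))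
        refine (norm_sub_le _ _).trans (add_le_add hF ?_)
        rw [Complex.norm_real, Real.norm_eq_abs]; exact hV
    _ = δ + η * (1 + ‖z‖) := by ring

end Pool.Agent.H54.M7.KC
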