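import Mathlib
import Pool.Agent.H54.M7.KC1
import Pool.Agent.H82.Q1.M7.Init
import Pool.Agent.H91.M7.StartD

set_option autoImplicit false
open Set Filter Topology Metric

/-! # J17: convergence of the maps of the first domains (KC without labels) -/

namespace Pool.Agent.H54.M7.KC

open Pool.Agent.H82.Q1 (HH cHH IsChart)
open Pool.Agent.H82.Q1.M7 (StKC exists_radii)
open Pool.Agent.H83.Lo (UH)
open scoped Real

variable {D : Set ℂ} {a b : ℂ} {φ : ℂ → ℂ}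

lemma high_of (h : IsChart D a b φ) (Y0 : ℝ) : ∃ r0 : ℝ, 0 < r0 ∧
    ∀ Y : ℝ, 0 < Y → φ (Y * Complex.I) ∈ ball b r0 → Y0 < Y := by
  obtain ⟨Y1, -, hY1, -, r0, hr0, -, h1⟩ := exists_radii h Y0 one_pos
  refine ⟨r0, hr0, fun Y hY hb => ?_⟩
  by_contra hcon
  rw [not_lt] at hcon
  refine h1 (Y * Complex.I) (by simpa using hY.le) ?_ (ball_subset_ball (by linarith) hb)
  rw [norm_mul, Complex.norm_I, Complex.norm_real, Real.norm_of_nonneg hY.le]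
  linarith

lemma low_of (h : IsChart D a b φ) (hab : a ≠ b) {e0 : ℝ} (he0 : 0 < e0) : ∃ r0 : ℝ, 0 < r0 ∧
    ∀ e : ℝ, 0 < e → φ (e * Complex.I) ∈ ball a r0 → e < e0 := by
  have hS : IsClosed ({z : ℂ | 0 ≤ z.im} ∩ {z : ℂ | e0 ≤ ‖z‖}) :=
    (isClosed_le continuous_const Complex.continuous_im).inter
      (isClosed_le continuous_const continuous_norm)
  have h1 := Pool.Agent.H91.M7.isClosed_insert_image h hS inter_subset_left
  have h2 : a ∉ insert b (φ '' ({z : ℂ | 0 ≤ z.im} ∩ {z : ℂ | e0 ≤ ‖z‖})) := by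
    rintro (h3 | ⟨z, ⟨hz1, hz2⟩, hz⟩)
    · exact hab h3
    · have h0 : (0 : ℂ) ∈ cHH := by change (0:ℝ) ≤ (0:ℂ).im; simp
      have h4 := h.inj hz1 h0 (hz.trans h.zero.symm)
      rw [mem_ofPred_eq, h4, norm_zero] at hz2
      linarith
  have h3 := (h1.notMem_iff_infDist_pos ⟨b, mem_insert _ _⟩).1 h2
  refine ⟨_, h3, fun e he hea => ?_⟩
  by_contra hcon
  rw [not_lt] at hcon
  have h4 : φ (e * Complex.I) ∈ insert b (φ '' ({z : ℂ | 0 ≤ z.im} ∩ {z : ℂ | e0 ≤ ‖z‖})) := by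
    refine Or.inr ⟨e * Complex.I, ⟨?_, ?_⟩, rfl⟩
    · simpa using he.le
    · rw [mem_ofPred_eq, norm_mul, Complex.norm_I, Complex.norm_real, Real.norm_of_nonneg he.le]
      linarith
  have h5 := infDist_le_dist_of_mem (x := a) h4
  rw [mem_ball, dist_comm] at hea
  linarith

lemma small_r {R ε : ℝ} (hR : 0 < R) (hε : 0 < ε) : ∃ r1 : ℝ, 0 < r1 ∧ r1 < R ∧
    ∀ r : ℝ, 0 < r → r ≤ r1 → 32 * π / √(Real.log (R / r)) ≤ ε := by
  set L : ℝ := (32 * π / ε) ^ 2 + 1 with hL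
  have hL0 : 0 < L := by positivity
  refine ⟨R * Real.exp (-L), by positivity, ?_, fun r hr hr1 => ?_⟩
  · have : Real.exp (-L) < 1 := by rw [Real.exp_lt_one_iff]; linarith
    nlinarith
  · have h1 : L ≤ Real.log (R / r) := by
      rw [Real.le_log_iff_exp_le (by positivity), le_div_iff₀ hr]
      calc Real.exp L * r ≤ Real.exp L * (R * Real.exp (-L)) := by gcongr
        _ = R * (Real.exp L * Real.exp (-L)) := by ring
        _ = R := by rw [← Real.exp_add]; simp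
    have h2 : 32 * π / ε ≤ √(Real.log (R / r)) := by
      apply Real.le_sqrt_of_sq_le
      linarith
    have h3 : 0 < 32 * π / ε := by positivity
    rw [div_le_iff₀ (h3.trans_le h2)]
    rw [div_le_iff₀ hε] at h2
    linarith

section one

variable {G : Set ℂ} {ψ : ℂ → ℂ}

lemma I_mem : Complex.I ∈ UH := by change 0 < Complex.I.im; simp

lemma UH_cHH {z : ℂ} (hz : z ∈ UH) : z ∈ cHH := by
  have h1 : 0 < z.im := hz
  exact (h1.le : (0:ℝ) ≤ z.im)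

lemma mbi_I_zero : mbi Complex.I 0 = Complex.I := by simp [mbi]

lemma bijOn_chart (h : IsChart D a b φ) : BijOn φ UH D := by
  have h1 : φ '' UH = D := h.image
  refine ⟨fun z hz => h1 ▸ ⟨z, hz, rfl⟩, h.inj.mono fun z hz => (le_of_lt hz : (0:ℝ) ≤ z.im), ?_⟩
  rw [SurjOn, h1]

/-- the disc map -/
noncomputable def gm (φ ψ : ℂ → ℂ) (p : ℂ) : ℂ := mb (ψ (φ Complex.I)) (ψ p)

lemma gm_bij (hb : BijOn ψ G UH) (hI : φ Complex.I ∈ G) : BijOn (gm φ ψ) G (ball 0 1) :=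
  (bijOn_mb (hb.mapsTo hI)).comp hb

lemma gm_diff (hd : DifferentiableOn ℂ ψ G) (hb : BijOn ψ G UH) (hI : φ Complex.I ∈ G) :
    DifferentiableOn ℂ (gm φ ψ) G := by
  intro p hp
  exact (diff_mb (hb.mapsTo hI) (le_of_lt (hb.mapsTo hp))).comp_differentiableWithinAt p (hd p hp)

lemma gm_zero : gm φ ψ (φ Complex.I) = 0 := mb_self _

/-- the domain in the disc -/
def Um (φ : ℂ → ℂ) (G : Set ℂ) : Set ℂ := ball 0 1 ∩ (fun ζ => φ (mbi Complex.I ζ)) ⁻¹' G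

lemma chart_mbi_diff (h : IsChart D a b φ) :
    DifferentiableOn ℂ (fun ζ => φ (mbi Complex.I ζ)) (ball 0 1) :=
  DifferentiableOn.comp (g := φ) (t := UH) h.diff (diff_mbi _) fun _ hζ => mbi_mem I_mem hζ

lemma Um_open (h : IsChart D a b φ) (hG : IsOpen G) : IsOpen (Um φ G) :=
  (chart_mbi_diff h).continuousOn.isOpen_inter_preimage isOpen_ball hG

/-- the map in the disc -/
noncomputable def hm (φ ψ : ℂ → ℂ) (ζ : ℂ) : ℂ := gm φ ψ (φ (mbi Complex.I ζ))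

lemma hm_diff (h : IsChart D a b φ) (hd : DifferentiableOn ℂ ψ G) (hb : BijOn ψ G UH)
    (hI : φ Complex.I ∈ G) : DifferentiableOn ℂ (hm φ ψ) (Um φ G) :=
  DifferentiableOn.comp (g := gm φ ψ) (t := G) (gm_diff hd hb hI)
    ((chart_mbi_diff h).mono inter_subset_left) fun _ hζ => hζ.2

lemma hm_bij (h : IsChart D a b φ) (hGD : G ⊆ D) (hb : BijOn ψ G UH) (hI : φ Complex.I ∈ G) :
    BijOn (hm φ ψ) (Um φ G) (ball 0 1) := by
  refine (gm_bij hb hI).comp ⟨fun _ hζ => hζ.2, ?_, ?_⟩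
  · intro ζ hζ ζ' hζ' he
    have h1 := (bijOn_chart h).injOn (mbi_mem I_mem hζ.1) (mbi_mem I_mem hζ'.1) he
    exact (bijOn_mbi I_mem).injOn hζ.1 hζ'.1 h1
  · intro p hp
    obtain ⟨z, hz, rfl⟩ := (bijOn_chart h).surjOn (hGD hp)
    obtain ⟨ζ, hζ, rfl⟩ := (bijOn_mbi I_mem).surjOn hz
    exact ⟨ζ, ⟨hζ, hp⟩, rfl⟩

lemma hm_zero : hm φ ψ 0 = 0 := by rw [hm, mbi_I_zero]; exact gm_zero

lemma hm_mb {z : ℂ} (hz : z ∈ UH) : hm φ ψ (mb Complex.I z) = gm φ ψ (φ z) := by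
  rw [hm, mbi_mb I_mem (le_of_lt hz)]

lemma ext_g (hG : IsOpen G) (hd : DifferentiableOn ℂ ψ G) (hb : BijOn ψ G UH)
    (hI : φ Complex.I ∈ G) {p : ℂ} {r : ℝ} (hr : 0 < r) (hrR : r < dist (φ Complex.I) p)
    {P : Set ℂ} (hPc : IsPreconnected P) (hP : P ⊆ G ∩ ball p r) {z w : ℂ} (hz : z ∈ P)
    (hw : w ∈ closure (gm φ ψ '' P)) :
    dist w (gm φ ψ z) ≤ 32 * π / √(Real.log (dist (φ Complex.I) p / r)) := by
  have h1 : gm φ ψ '' P ⊆ closedBall (gm φ ψ z)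
      (32 * π / √(Real.log (dist (φ Complex.I) p / r))) := by
    rintro _ ⟨x, hx, rfl⟩
    exact Pool.Agent.H91.M7.ext_disc hG (gm_diff hd hb hI) (gm_bij hb hI).injOn
      (gm_bij hb hI).image_eq hI gm_zero hr hrR le_rfl hPc (hP.trans inter_subset_left)
      ((hP.trans inter_subset_right).trans ball_subset_closedBall) hx hz
  exact closure_minimal h1 isClosed_closedBall hw

lemma one_mem (hI : ψ (φ Complex.I) ∈ UH) {P : Set ℂ} (hP : ψ '' P ⊆ UH)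
    (hu : ¬ Bornology.IsBounded (ψ '' P)) : (1 : ℂ) ∈ closure (gm φ ψ '' P) := by
  rw [Metric.mem_closure_iff]
  intro δ hδ
  by_contra hcon
  push Not at hcon
  apply hu
  set w0 := ψ (φ Complex.I) with hw0
  rw [isBounded_iff_forall_norm_le]
  refine ⟨‖w0 - (starRingEnd ℂ) w0‖ / δ + ‖(starRingEnd ℂ) w0‖, ?_⟩
  rintro _ ⟨z, hz, rfl⟩
  have h1 := hcon (gm φ ψ z) ⟨z, hz, rfl⟩
  have hw : 0 ≤ (ψ z).im := le_of_lt (hP ⟨z, hz, rfl⟩)
  have h2 := den_ne hI hw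
  have h3 : 1 - gm φ ψ z = (w0 - (starRingEnd ℂ) w0) / (ψ z - (starRingEnd ℂ) w0) := by
    rw [gm, mb, ← hw0]; field_simp; ring
  rw [dist_eq_norm, h3, norm_div, le_div_iff₀ (norm_pos_iff.2 h2)] at h1
  have h4 : ‖ψ z - (starRingEnd ℂ) w0‖ ≤ ‖w0 - (starRingEnd ℂ) w0‖ / δ := by
    rw [le_div_iff₀ hδ]; linarith
  have h5 := norm_sub_norm_le (ψ z) ((starRingEnd ℂ) w0)
  linarith

lemma tip_mem (hI : ψ (φ Complex.I) ∈ UH) {P : Set ℂ} {W : ℝ} (hW : (W : ℂ) ∈ closure (ψ '' P)) :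
    mb (ψ (φ Complex.I)) (W : ℂ) ∈ closure (gm φ ψ '' P) := by
  have h1 : ContinuousAt (mb (ψ (φ Complex.I))) (W : ℂ) :=
    (diff_mb hI (by simp)).continuousAt
  have h2 := h1.continuousWithinAt.mem_closure_image hW
  rwa [image_image] at h2

end one

section main

variable {G : ℕ → Set ℂ} {ψ : ℕ → ℂ → ℂ} {W : ℕ → ℝ}

lemma ev_I (h : IsChart D a b φ)
    (hK : ∀ K : Set ℂ, IsCompact K → K ⊆ D → ∀ᶠ m in atTop, K ⊆ G m) :
    ∀ᶠ m in atTop, φ Complex.I ∈ G m := by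
  filter_upwards [hK {φ Complex.I} isCompact_singleton
    (singleton_subset_iff.2 ((bijOn_chart h).mapsTo I_mem))] with m hm
  exact hm rfl

lemma stepA (h : IsChart D a b φ) (hGo : ∀ m, IsOpen (G m)) (hGD : ∀ m, G m ⊆ D)
    (hd : ∀ m, DifferentiableOn ℂ (ψ m) (G m)) (hb : ∀ m, BijOn (ψ m) (G m) UH)
    (hK : ∀ K : Set ℂ, IsCompact K → K ⊆ D → ∀ᶠ m in atTop, K ⊆ G m) {r ε : ℝ} (hr : r < 1)
    (hε : 0 < ε) :
    ∀ᶠ m in atTop, ‖deriv (hm φ (ψ m)) 0‖ ≤ 2 ∧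
      ∀ ζ : ℂ, ‖ζ‖ ≤ r → ‖hm φ (ψ m) ζ - deriv (hm φ (ψ m)) 0 * ζ‖ ≤ ε := by
  obtain ⟨ρ, hρ0, hρ1, hrρ, hρ2, hρ⟩ := exists_rho hr hε
  have hKc : IsCompact ((fun ζ => φ (mbi Complex.I ζ)) '' closedBall 0 ρ) :=
    (isCompact_closedBall _ _).image_of_continuousOn
      ((chart_mbi_diff h).continuousOn.mono (closedBall_subset_ball hρ1))
  have hKD : (fun ζ => φ (mbi Complex.I ζ)) '' closedBall 0 ρ ⊆ D := by
    rintro _ ⟨ζ, hζ, rfl⟩
    exact (bijOn_chart h).mapsTo (mbi_mem I_mem (closedBall_subset_ball hρ1 hζ))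
  filter_upwards [hK _ hKc hKD, ev_I h hK] with m hm' hI
  obtain ⟨h1, h2⟩ := near_rot hρ0 hρ1 (Um_open h (hGo m)) inter_subset_left
    (fun ζ hζ => ⟨ball_subset_ball hρ1.le hζ, hm' ⟨ζ, ball_subset_closedBall hζ, rfl⟩⟩)
    (hm_diff h (hd m) (hb m) hI) (hm_bij h (hGD m) (hb m) hI) hm_zero
  refine ⟨h1.trans hρ2, fun ζ hζ => (h2 ζ ?_).trans (hρ _ (norm_nonneg _) hζ)⟩
  rw [mem_ball_zero_iff]; linarith

lemma mb_I_real {Y : ℝ} (hY : 0 < Y) :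
    mb Complex.I (Y * Complex.I) = (((Y - 1) / (Y + 1) : ℝ) : ℂ) := by
  have h1 : ((Y : ℂ) + 1) ≠ 0 := by
    have : (Y + 1 : ℝ) ≠ 0 := by linarith
    exact_mod_cast this
  rw [mb, Complex.conj_I]
  have h2 : (Y : ℂ) * Complex.I - Complex.I = (Y - 1) * Complex.I := by ring
  have h3 : (Y : ℂ) * Complex.I - -Complex.I = (Y + 1) * Complex.I := by ring
  rw [h2, h3, mul_div_mul_right _ _ Complex.I_ne_zero]
  push_cast
  rfl

lemma yI_mem {Y : ℝ} (hY : 0 < Y) : (Y * Complex.I : ℂ) ∈ UH := by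
  change 0 < (Y * Complex.I : ℂ).im
  simpa using hY

lemma stepB (h : IsChart D a b φ) (hGo : ∀ m, IsOpen (G m)) (hGD : ∀ m, G m ⊆ D)
    (hd : ∀ m, DifferentiableOn ℂ (ψ m) (G m)) (hb : ∀ m, BijOn (ψ m) (G m) UH)
    (hK : ∀ K : Set ℂ, IsCompact K → K ⊆ D → ∀ᶠ m in atTop, K ⊆ G m)
    (hB : ∀ r : ℝ, 0 < r → ∃ Y : ℝ, 0 < Y ∧ ∀ᶠ m in atTop, ∃ Pb : Set ℂ, Pb ⊆ G m ∩ ball b r ∧
      IsPreconnected Pb ∧ φ (Y * Complex.I) ∈ Pb ∧ ¬ Bornology.IsBounded (ψ m '' Pb))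
    {ε : ℝ} (hε : 0 < ε) :
    ∀ᶠ m in atTop, ‖deriv (hm φ (ψ m)) 0 - 1‖ ≤ ε := by
  have hR : 0 < dist (φ Complex.I) b := by
    rw [dist_pos]
    intro h1
    exact h.ne ⟨Complex.I, UH_cHH I_mem, h1⟩
  obtain ⟨r1, hr10, hr1R, hr1⟩ := small_r hR (ε := ε / 3) (by positivity)
  obtain ⟨r0, hr0, hY0⟩ := high_of h (12 / ε)
  have hr : 0 < min r0 r1 := lt_min hr0 hr10
  obtain ⟨Y, hY, hev⟩ := hB _ hr
  have hYb : 12 / ε < Y := by
    obtain ⟨m, Pb, h1, -, h2, -⟩ := hev.exists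
    exact hY0 Y hY (ball_subset_ball (min_le_left _ _) (h1 h2).2)
  set s : ℝ := (Y - 1) / (Y + 1) with hs
  have hs1 : ‖(s : ℂ)‖ < 1 := by
    rw [Complex.norm_real, Real.norm_eq_abs, abs_lt, hs]
    constructor
    · rw [lt_div_iff₀ (by linarith)]; linarith
    · rw [div_lt_one (by linarith)]; linarith
  have hs2 : 1 - s = 2 / (Y + 1) := by
    rw [hs]; field_simp; ring
  have hs3 : 1 - s ≤ ε / 6 := by
    rw [hs2, div_le_iff₀ (by linarith)]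
    rw [div_lt_iff₀ hε] at hYb
    nlinarith
  have hs0 : 0 ≤ 1 - s := by rw [hs2]; positivity
  filter_upwards [hev, stepA h hGo hGD hd hb hK hs1 (ε := ε / 3) (by positivity), ev_I h hK] with
    m hm' hA hI
  obtain ⟨Pb, hP1, hP2, hP3, hP4⟩ := hm'
  obtain ⟨hc2, hA⟩ := hA
  have hPs : ψ m '' Pb ⊆ UH := by
    rintro _ ⟨p, hp, rfl⟩
    exact (hb m).mapsTo (hP1 hp).1
  have h1 : dist 1 (gm φ (ψ m) (φ (Y * Complex.I))) ≤ ε / 3 :=
    (ext_g (hGo m) (hd m) (hb m) hI hr ((min_le_right _ _).trans_lt hr1R) hP2 hP1 hP3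
      (one_mem ((hb m).mapsTo hI) hPs hP4)).trans (hr1 _ hr (min_le_right _ _))
  have h2 := hA (s : ℂ) le_rfl
  rw [hs, ← mb_I_real hY, hm_mb (yI_mem hY), mb_I_real hY, ← hs] at h2
  set c := deriv (hm φ (ψ m)) 0 with hc
  set g := gm φ (ψ m) (φ (Y * Complex.I)) with hg
  have h3 : c - 1 = c * ((1 - s : ℝ) : ℂ) - (g - c * s) - (1 - g) := by push_cast; ring
  rw [h3]
  have h4 : ‖c * ((1 - s : ℝ) : ℂ)‖ ≤ 2 * (ε / 6) := by
    rw [norm_mul, Complex.norm_real, Real.norm_of_nonneg hs0]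
    exact mul_le_mul hc2 hs3 hs0 (by norm_num)
  have h5 := norm_sub_le (c * ((1 - s : ℝ) : ℂ) - (g - c * s)) (1 - g)
  have h6 := norm_sub_le (c * ((1 - s : ℝ) : ℂ)) (g - c * s)
  rw [dist_eq_norm] at h1
  linarith

lemma stepC (h : IsChart D a b φ) (hGo : ∀ m, IsOpen (G m)) (hGD : ∀ m, G m ⊆ D)
    (hd : ∀ m, DifferentiableOn ℂ (ψ m) (G m)) (hb : ∀ m, BijOn (ψ m) (G m) UH)
    (hK : ∀ K : Set ℂ, IsCompact K → K ⊆ D → ∀ᶠ m in atTop, K ⊆ G m)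
    (hB : ∀ r : ℝ, 0 < r → ∃ Y : ℝ, 0 < Y ∧ ∀ᶠ m in atTop, ∃ Pb : Set ℂ, Pb ⊆ G m ∩ ball b r ∧
      IsPreconnected Pb ∧ φ (Y * Complex.I) ∈ Pb ∧ ¬ Bornology.IsBounded (ψ m '' Pb))
    {r ε : ℝ} (hr : r < 1) (hε : 0 < ε) :
    ∀ᶠ m in atTop, ∀ ζ : ℂ, ‖ζ‖ ≤ r → ‖hm φ (ψ m) ζ - ζ‖ ≤ ε := by
  filter_upwards [stepA h hGo hGD hd hb hK hr (ε := ε / 2) (by positivity),
    stepB h hGo hGD hd hb hK hB (ε := ε / 2) (by positivity)] with m hA hB' ζ hζ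
  have h1 := hA.2 ζ hζ
  set c := deriv (hm φ (ψ m)) 0 with hc
  have h2 : hm φ (ψ m) ζ - ζ = (hm φ (ψ m) ζ - c * ζ) + (c - 1) * ζ := by ring
  rw [h2]
  refine (norm_add_le _ _).trans ?_
  rw [norm_mul]
  have h3 : ‖c - 1‖ * ‖ζ‖ ≤ ε / 2 * 1 := mul_le_mul hB' (by linarith) (norm_nonneg _) (by linarith)
  linarith

lemma stepD (h : IsChart D a b φ) (hab : a ≠ b) (hGo : ∀ m, IsOpen (G m)) (hGD : ∀ m, G m ⊆ D)
    (hd : ∀ m, DifferentiableOn ℂ (ψ m) (G m)) (hb : ∀ m, BijOn (ψ m) (G m) UH)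
    (hK : ∀ K : Set ℂ, IsCompact K → K ⊆ D → ∀ᶠ m in atTop, K ⊆ G m)
    (hT : ∀ r : ℝ, 0 < r → ∃ e : ℝ, 0 < e ∧ ∀ᶠ m in atTop, ∃ Pc : Set ℂ, Pc ⊆ G m ∩ ball a r ∧
      IsPreconnected Pc ∧ φ (e * Complex.I) ∈ Pc ∧ (W m : ℂ) ∈ closure (ψ m '' Pc))
    (hB : ∀ r : ℝ, 0 < r → ∃ Y : ℝ, 0 < Y ∧ ∀ᶠ m in atTop, ∃ Pb : Set ℂ, Pb ⊆ G m ∩ ball b r ∧
      IsPreconnected Pb ∧ φ (Y * Complex.I) ∈ Pb ∧ ¬ Bornology.IsBounded (ψ m '' Pb))
    {ε : ℝ} (hε : 0 < ε) (hε1 : ε ≤ 1) :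
    ∀ᶠ m in atTop, |(W m - (ψ m (φ Complex.I)).re) / (ψ m (φ Complex.I)).im| ≤ ε := by
  have hR : 0 < dist (φ Complex.I) a := by
    rw [dist_pos]
    intro h1
    have h0 : (0 : ℂ) ∈ cHH := by change (0:ℝ) ≤ (0:ℂ).im; simp
    have h2 := h.inj (UH_cHH I_mem) h0 (h1.trans h.zero.symm)
    exact Complex.I_ne_zero h2
  obtain ⟨r1, hr10, hr1R, hr1⟩ := small_r hR (ε := ε / 3) (by positivity)
  obtain ⟨r0, hr0, hY0⟩ := low_of h hab (e0 := ε / 6) (by positivity)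
  have hr : 0 < min r0 r1 := lt_min hr0 hr10
  obtain ⟨e, he, hev⟩ := hT _ hr
  have hea : e < ε / 6 := by
    obtain ⟨m, Pb, h1, -, h2, -⟩ := hev.exists
    exact hY0 e he (ball_subset_ball (min_le_left _ _) (h1 h2).2)
  set s : ℝ := (e - 1) / (e + 1) with hs
  have hs1 : ‖(s : ℂ)‖ < 1 := by
    rw [Complex.norm_real, Real.norm_eq_abs, abs_lt, hs]
    constructor
    · rw [lt_div_iff₀ (by linarith)]; linarith
    · rw [div_lt_one (by linarith)]; linarith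
  have hs2 : s + 1 = 2 * e / (e + 1) := by
    rw [hs]; field_simp; ring
  have hs3 : s + 1 ≤ ε / 3 := by
    rw [hs2, div_le_iff₀ (by linarith)]
    nlinarith
  have hs0 : 0 ≤ s + 1 := by rw [hs2]; positivity
  filter_upwards [hev, stepC h hGo hGD hd hb hK hB hs1 (ε := ε / 3) (by positivity), ev_I h hK] with
    m hm' hC hI
  obtain ⟨Pc, hP1, hP2, hP3, hP4⟩ := hm'
  have h1 : dist (mb (ψ m (φ Complex.I)) (W m : ℂ)) (gm φ (ψ m) (φ (e * Complex.I))) ≤ ε / 3 :=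
    (ext_g (hGo m) (hd m) (hb m) hI hr ((min_le_right _ _).trans_lt hr1R) hP2 hP1 hP3
      (tip_mem ((hb m).mapsTo hI) hP4)).trans (hr1 _ hr (min_le_right _ _))
  have h2 := hC (s : ℂ) le_rfl
  rw [hs, ← mb_I_real he, hm_mb (yI_mem he), mb_I_real he, ← hs] at h2
  refine tip_near ((hb m).mapsTo hI) hε1 ?_
  set w := mb (ψ m (φ Complex.I)) (W m : ℂ) with hw
  set g := gm φ (ψ m) (φ (e * Complex.I)) with hg
  have h3 : w + 1 = (w - g) + (g - s) + ((s + 1 : ℝ) : ℂ) := by push_cast; ring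
  rw [h3]
  refine (norm_add_le _ _).trans ?_
  have h5 := norm_add_le (w - g) (g - s)
  rw [dist_eq_norm] at h1
  rw [Complex.norm_real, Real.norm_of_nonneg hs0]
  linarith

/-- **J17, [KC] without labels.** -/
theorem stKC (h : IsChart D a b φ) (hab : a ≠ b) : StKC D a b φ := by
  intro G ψ W hGo hGD hd hb hK hT hB K hKc hKU ε hε
  have hmc : ContinuousOn (mb Complex.I) K := fun z hz =>
    (diff_mb I_mem (le_of_lt (hKU hz))).continuousAt.continuousWithinAt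
  have hK1 : mb Complex.I '' K ⊆ ball (0:ℂ) 1 := by
    rintro _ ⟨z, hz, rfl⟩
    exact mb_mem I_mem (hKU hz)
  obtain ⟨r, hr, hKr⟩ := exists_lt_subset_ball (hKc.image_of_continuousOn hmc).isClosed hK1
  obtain ⟨M, hM⟩ := hKc.isBounded.exists_norm_le
  set M' : ℝ := max M 0 with hM'
  have hM0 : 0 ≤ M' := le_max_right _ _
  set ε1 : ℝ := min ((1 - r) / 2) (ε * (1 - r) ^ 2 / 8) with hε1
  have h1r : 0 < 1 - r := by linarith
  have hε10 : 0 < ε1 := lt_min (by linarith) (by positivity)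
  set η : ℝ := min 1 (ε / (2 * (1 + M'))) with hη
  have hη0 : 0 < η := lt_min one_pos (by positivity)
  have hφK : ∀ᶠ m in atTop, φ '' K ⊆ G m := by
    refine hK _ (hKc.image_of_continuousOn (h.cont.mono fun z hz => UH_cHH (hKU hz))) ?_
    rintro _ ⟨z, hz, rfl⟩
    exact (bijOn_chart h).mapsTo (hKU hz)
  filter_upwards [stepC h hGo hGD hd hb hK hB hr hε10,
    stepD h hab hGo hGD hd hb hK hT hB hη0 (min_le_left _ _), ev_I h hK, hφK] with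
    m hC hD' hI hG z hz
  have hzU := hKU hz
  have hw : 0 ≤ (ψ m (φ z)).im := le_of_lt ((hb m).mapsTo (hG ⟨z, hz, rfl⟩))
  have hzr : ‖mb Complex.I z‖ ≤ r := by
    have := hKr ⟨z, hz, rfl⟩
    rw [mem_ball_zero_iff] at this
    exact this.le
  have h1 := hC _ hzr
  have h2 := mbi_near hr hzr h1 (min_le_left _ _)
  rw [hm_mb hzU, mbi_mb I_mem (le_of_lt hzU)] at h2
  have h3 := fin_near ((hb m).mapsTo hI) h2 hw hD'
  refine h3.trans ?_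
  have h4 : 4 * ε1 / (1 - r) ^ 2 ≤ ε / 2 := by
    rw [div_le_iff₀ (by positivity)]
    have : ε1 ≤ ε * (1 - r) ^ 2 / 8 := min_le_right _ _
    linarith
  have h5 : η * (1 + ‖z‖) ≤ ε / 2 := by
    have h6 : η ≤ ε / (2 * (1 + M')) := min_le_right _ _
    have h7 : ‖z‖ ≤ M' := (hM z hz).trans (le_max_left _ _)
    calc η * (1 + ‖z‖) ≤ ε / (2 * (1 + M')) * (1 + M') :=
          mul_le_mul h6 (by linarith) (by positivity) (by positivity)
      _ = ε / 2 := by field_simp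
  linarith

/-- **J17**, the form used in the top theorem (`a ≠ b` follows from the chart). -/
theorem stKC_of_chart (h : IsChart D a b φ) : StKC D a b φ := by
  refine stKC h fun hab => h.ne ⟨0, ?_, h.zero.trans hab⟩
  change (0:ℝ) ≤ (0:ℂ).im
  simp

end main

end Pool.Agent.H54.M7.KC
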