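import Mathlib

set_option autoImplicit false

/-! Tightness of laws on `C(ℝ≥0, E)` from moduli of continuity on bounded time intervals
(Arzela-Ascoli + Prokhorov criterion). -/

namespace Pool.Agent.H54.M7

open MeasureTheory Filter Topology Set
open scoped NNReal ENNReal

variable {E : Type*} [MetricSpace E]

/-- functions with prescribed start and moduli of continuity -/
def Md (x0 : E) (R : ℝ) (θ : ℕ → ℝ) : Set (ℝ≥0 → E) :=
  {g | dist (g 0) x0 ≤ R ∧ ∀ (n : ℕ) (s t : ℝ≥0), s ≤ n → t ≤ n → dist s t ≤ θ n →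
    dist (g s) (g t) ≤ 1 / ((n : ℝ) + 1)}

lemma Md_closed (x0 : E) (R : ℝ) (θ : ℕ → ℝ) : IsClosed (Md x0 R θ) := by
  have : Md x0 R θ = {g | dist (g 0) x0 ≤ R} ∩ ⋂ (n : ℕ), ⋂ (s : ℝ≥0), ⋂ (t : ℝ≥0),
      ⋂ (_ : s ≤ n), ⋂ (_ : t ≤ n), ⋂ (_ : dist s t ≤ θ n),
      {g : ℝ≥0 → E | dist (g s) (g t) ≤ 1 / ((n : ℝ) + 1)} := by
    ext g
    simp only [Md, mem_inter_iff, mem_iInter, mem_ofPred_eq]
  rw [this]
  apply IsClosed.inter
  · exact isClosed_le ((continuous_apply 0).dist continuous_const) continuous_const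
  · refine isClosed_iInter fun n => isClosed_iInter fun s => isClosed_iInter fun t =>
      isClosed_iInter fun _ => isClosed_iInter fun _ => isClosed_iInter fun _ => ?_
    exact isClosed_le ((continuous_apply s).dist (continuous_apply t)) continuous_const

lemma Md_near {x0 : E} {R : ℝ} {θ : ℕ → ℝ} (hθ : ∀ n, 0 < θ n) (t : ℝ≥0) {ε : ℝ} (hε : 0 < ε) :
    ∃ δ > 0, ∀ g ∈ Md x0 R θ, ∀ s, dist s t < δ → dist (g s) (g t) < ε := by
  obtain ⟨n1, hn1⟩ := exists_nat_one_div_lt hε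
  obtain ⟨n2, hn2⟩ := exists_nat_ge (t + 1)
  set n := max n1 n2 with hn
  refine ⟨min 1 (θ n), lt_min one_pos (hθ n), ?_⟩
  intro g hg s hs
  have hs1 : dist s t < 1 := hs.trans_le (min_le_left _ _)
  have hs2 : dist s t ≤ θ n := (hs.trans_le (min_le_right _ _)).le
  have ht : t + 1 ≤ (n : ℝ≥0) := hn2.trans (by exact_mod_cast le_max_right n1 n2)
  have hsn : s ≤ (n : ℝ≥0) := by
    refine le_trans ?_ ht
    rw [NNReal.dist_eq, abs_lt] at hs1
    rw [← NNReal.coe_le_coe, NNReal.coe_add, NNReal.coe_one]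
    linarith
  have htn : t ≤ (n : ℝ≥0) := le_trans (le_add_of_nonneg_right zero_le_one) ht
  refine lt_of_le_of_lt (hg.2 n s t hsn htn hs2) (lt_of_le_of_lt ?_ hn1)
  apply one_div_le_one_div_of_le (by positivity)
  have : (n1 : ℝ) ≤ n := by exact_mod_cast le_max_left n1 n2
  linarith

lemma Md_cont {x0 : E} {R : ℝ} {θ : ℕ → ℝ} (hθ : ∀ n, 0 < θ n) {g : ℝ≥0 → E}
    (hg : g ∈ Md x0 R θ) : Continuous g := by
  rw [Metric.continuous_iff]
  intro t ε hε
  obtain ⟨δ, hδ, h⟩ := Md_near (x0 := x0) (R := R) hθ t hε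
  exact ⟨δ, hδ, fun s hs => h g hg s hs⟩

lemma Md_bound {x0 : E} {R : ℝ} {θ : ℕ → ℝ} (hθ : ∀ n, 0 < θ n) (t : ℝ≥0) :
    ∃ B : ℝ, ∀ g ∈ Md x0 R θ, dist (g t) x0 ≤ B := by
  obtain ⟨n, hn⟩ := exists_nat_ge t
  obtain ⟨N, hN⟩ := exists_nat_ge ((n : ℝ) / θ n)
  refine ⟨(N + 1) + R, ?_⟩
  intro g hg
  have hN1 : (0 : ℝ≥0) < (N : ℝ≥0) + 1 := by positivity
  let u : ℕ → ℝ≥0 := fun k => t * k / (N + 1)
  have hu0 : u 0 = 0 := by simp [u]
  have huN : u (N + 1) = t := by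
    simp only [u, Nat.cast_add, Nat.cast_one]
    field_simp
  have hle : ∀ k ≤ N + 1, u k ≤ n := by
    intro k hk
    refine le_trans ?_ hn
    simp only [u]
    rw [div_le_iff₀ hN1]
    gcongr
    exact_mod_cast hk
  have hstep : ∀ k < N + 1, dist (g (u k)) (g (u (k + 1))) ≤ 1 := by
    intro k hk
    refine (hg.2 n _ _ (hle k hk.le) (hle (k + 1) hk) ?_).trans ?_
    · rw [NNReal.dist_eq]
      simp only [u, NNReal.coe_div, NNReal.coe_mul, NNReal.coe_natCast, NNReal.coe_add,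
        NNReal.coe_one, Nat.cast_add, Nat.cast_one]
      have e : (t : ℝ) * k / (N + 1) - t * (k + 1) / (N + 1) = -(t / (N + 1)) := by
        field_simp; ring
      rw [e, abs_neg, abs_of_nonneg (by positivity), div_le_iff₀ (by positivity)]
      have h1 : (t : ℝ) ≤ n := by exact_mod_cast hn
      have h2 : (n : ℝ) ≤ N * θ n := by rwa [div_le_iff₀ (hθ n)] at hN
      have h3 := hθ n
      nlinarith
    · rw [div_le_one (by positivity)]
      linarith [Nat.cast_nonneg (α := ℝ) n]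
  have h1 : dist (g (u 0)) (g (u (N + 1))) ≤ ∑ k ∈ Finset.range (N + 1), (1 : ℝ) :=
    (dist_le_range_sum_dist (fun k => g (u k)) (N + 1)).trans
      (Finset.sum_le_sum fun k hk => hstep k (Finset.mem_range.1 hk))
  rw [hu0, huN] at h1
  simp only [Finset.sum_const, Finset.card_range, nsmul_eq_mul, mul_one, Nat.cast_add,
    Nat.cast_one] at h1
  calc dist (g t) x0 ≤ dist (g t) (g 0) + dist (g 0) x0 := dist_triangle _ _ _
    _ ≤ _ := by rw [dist_comm (g t)]; linarith [hg.1]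

/-- the compact sets of the tightness criterion -/
theorem isCompact_Md [ProperSpace E] (x0 : E) (R : ℝ) {θ : ℕ → ℝ} (hθ : ∀ n, 0 < θ n) :
    IsCompact {f : C(ℝ≥0, E) | (f : ℝ≥0 → E) ∈ Md x0 R θ} := by
  apply ArzelaAscoli.isCompact_of_equicontinuous
  · have e : ContinuousMap.toFun '' {f : C(ℝ≥0, E) | (f : ℝ≥0 → E) ∈ Md x0 R θ} = Md x0 R θ := by
      ext g
      constructor
      · rintro ⟨f, hf, rfl⟩; exact hf
      · intro hg
        exact ⟨⟨g, Md_cont hθ hg⟩, hg, rfl⟩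
    rw [e]
    choose B hB using fun t => Md_bound (x0 := x0) (R := R) hθ t
    refine (isCompact_univ_pi fun t => isCompact_closedBall x0 (B t)).of_isClosed_subset
      (Md_closed x0 R θ) ?_
    intro g hg t _
    exact hB t g hg
  · intro t
    rw [Metric.equicontinuousAt_iff]
    intro ε hε
    obtain ⟨δ, hδ, h⟩ := Md_near (x0 := x0) (R := R) hθ t hε
    refine ⟨δ, hδ, fun s hs f => ?_⟩
    rw [dist_comm]
    exact h _ f.2 s hs

/-- Tightness on `C(ℝ≥0, E)`. -/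
theorem tight_of_modulus [ProperSpace E] [MeasurableSpace C(ℝ≥0, E)] [BorelSpace C(ℝ≥0, E)]
    {S : Set (Measure C(ℝ≥0, E))} (x0 : E)
    (h0 : ∀ ε : ℝ≥0∞, 0 < ε → ∃ R : ℝ, ∀ μ ∈ S, μ {f | R < dist (f 0) x0} ≤ ε)
    (h1 : ∀ (T : ℕ) (r : ℝ), 0 < r → ∀ ε : ℝ≥0∞, 0 < ε → ∃ θ > 0, ∀ μ ∈ S,
      μ {f | ∃ s t : ℝ≥0, s ≤ T ∧ t ≤ T ∧ dist s t ≤ θ ∧ r < dist (f s) (f t)} ≤ ε) :
    IsTightMeasureSet S := by
  rw [isTightMeasureSet_iff_exists_isCompact_measure_compl_le]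
  intro ε hε
  obtain ⟨R, hR⟩ := h0 (ε / 2) (ENNReal.half_pos hε.ne')
  obtain ⟨e, he, hesum⟩ := ENNReal.exists_pos_sum_of_countable (ENNReal.half_pos hε.ne').ne' ℕ
  choose θ hθ hθ' using fun n : ℕ => h1 n (1 / ((n : ℝ) + 1)) (by positivity) (e n)
    (by exact_mod_cast he n)
  refine ⟨_, isCompact_Md x0 R hθ, fun μ hμ => ?_⟩
  have hsub : {f : C(ℝ≥0, E) | (f : ℝ≥0 → E) ∈ Md x0 R θ}ᶜ ⊆ {f | R < dist (f 0) x0} ∪
      ⋃ n : ℕ, {f | ∃ s t : ℝ≥0, s ≤ n ∧ t ≤ n ∧ dist s t ≤ θ n ∧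
        1 / ((n : ℝ) + 1) < dist (f s) (f t)} := by
    intro f hf
    by_contra hcon
    simp only [mem_union, mem_iUnion, mem_ofPred_eq, not_or, not_exists, not_lt, not_and] at hcon
    exact hf ⟨hcon.1, fun n s t hs ht hd => hcon.2 n s t hs ht hd⟩
  calc μ {f : C(ℝ≥0, E) | (f : ℝ≥0 → E) ∈ Md x0 R θ}ᶜ ≤ _ := measure_mono hsub
    _ ≤ μ {f | R < dist (f 0) x0} + μ (⋃ n : ℕ, {f | ∃ s t : ℝ≥0, s ≤ n ∧ t ≤ n ∧ dist s t ≤ θ n ∧
        1 / ((n : ℝ) + 1) < dist (f s) (f t)}) := measure_union_le _ _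
    _ ≤ ε / 2 + ∑' n, (e n : ℝ≥0∞) := by
        refine add_le_add (hR μ hμ) ((measure_iUnion_le _).trans ?_)
        exact ENNReal.tsum_le_tsum fun n => hθ' n μ hμ
    _ ≤ ε / 2 + ε / 2 := by gcongr
    _ = ε := ENNReal.add_halves ε

/-- Tightness on `C(X, E)`, `X` compact metric, when all functions take values in one compact set. -/
theorem tight_compact {X : Type*} [PseudoMetricSpace X] [CompactSpace X] [MeasurableSpace C(X, E)]
    [BorelSpace C(X, E)] {S : Set (Measure C(X, E))} {K : Set E} (hK : IsCompact K)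
    (h0 : ∀ μ ∈ S, μ {f | ¬ ∀ x, f x ∈ K} = 0)
    (h1 : ∀ r : ℝ, 0 < r → ∀ ε : ℝ≥0∞, 0 < ε → ∃ θ > 0, ∀ μ ∈ S,
      μ {f | ∃ s t : X, dist s t ≤ θ ∧ r < dist (f s) (f t)} ≤ ε) :
    IsTightMeasureSet S := by
  rw [isTightMeasureSet_iff_exists_isCompact_measure_compl_le]
  intro ε hε
  obtain ⟨e, he, hesum⟩ := ENNReal.exists_pos_sum_of_countable hε.ne' ℕ
  choose θ hθ hθ' using fun n : ℕ => h1 (1 / ((n : ℝ) + 1)) (by positivity) (e n)
    (by exact_mod_cast he n)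
  set M : Set (X → E) := {g | (∀ x, g x ∈ K) ∧ ∀ (n : ℕ) (s t : X), dist s t ≤ θ n →
    dist (g s) (g t) ≤ 1 / ((n : ℝ) + 1)} with hM
  have near : ∀ (t : X) (r : ℝ), 0 < r → ∃ δ > 0, ∀ g ∈ M, ∀ s, dist s t < δ →
      dist (g s) (g t) < r := by
    intro t r hr
    obtain ⟨n, hn⟩ := exists_nat_one_div_lt hr
    exact ⟨θ n, hθ n, fun g hg s hs => (hg.2 n s t hs.le).trans_lt hn⟩
  have hMcl : IsClosed M := by
    have : M = (⋂ x, {g : X → E | g x ∈ K}) ∩ ⋂ (n : ℕ), ⋂ (s : X), ⋂ (t : X),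
        ⋂ (_ : dist s t ≤ θ n), {g : X → E | dist (g s) (g t) ≤ 1 / ((n : ℝ) + 1)} := by
      ext g
      simp only [hM, mem_inter_iff, mem_iInter, mem_ofPred_eq]
    rw [this]
    apply IsClosed.inter
    · exact isClosed_iInter fun x => hK.isClosed.preimage (continuous_apply x)
    · refine isClosed_iInter fun n => isClosed_iInter fun s => isClosed_iInter fun t =>
        isClosed_iInter fun _ => ?_
      exact isClosed_le ((continuous_apply s).dist (continuous_apply t)) continuous_const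
  have hc : IsCompact {f : C(X, E) | (f : X → E) ∈ M} := by
    apply ArzelaAscoli.isCompact_of_equicontinuous
    · have e1 : ContinuousMap.toFun '' {f : C(X, E) | (f : X → E) ∈ M} = M := by
        ext g
        constructor
        · rintro ⟨f, hf, rfl⟩; exact hf
        · intro hg
          have hgc : Continuous g := by
            rw [Metric.continuous_iff]
            intro t r hr
            obtain ⟨δ, hδ, h⟩ := near t r hr
            exact ⟨δ, hδ, fun s hs => h g hg s hs⟩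
          exact ⟨⟨g, hgc⟩, hg, rfl⟩
      rw [e1]
      exact (isCompact_univ_pi fun _ : X => hK).of_isClosed_subset hMcl fun g hg t _ => hg.1 t
    · intro t
      rw [Metric.equicontinuousAt_iff]
      intro r hr
      obtain ⟨δ, hδ, h⟩ := near t r hr
      refine ⟨δ, hδ, fun s hs f => ?_⟩
      rw [dist_comm]
      exact h _ f.2 s hs
  refine ⟨_, hc, fun μ hμ => ?_⟩
  have hsub : {f : C(X, E) | (f : X → E) ∈ M}ᶜ ⊆ {f | ¬ ∀ x, f x ∈ K} ∪
      ⋃ n : ℕ, {f | ∃ s t : X, dist s t ≤ θ n ∧ 1 / ((n : ℝ) + 1) < dist (f s) (f t)} := by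
    intro f hf
    by_contra hcon
    simp only [mem_union, mem_iUnion, mem_ofPred_eq, not_or, not_exists, not_lt, not_and,
      not_not] at hcon
    exact hf ⟨hcon.1, fun n s t hd => hcon.2 n s t hd⟩
  calc μ {f : C(X, E) | (f : X → E) ∈ M}ᶜ ≤ _ := measure_mono hsub
    _ ≤ μ {f | ¬ ∀ x, f x ∈ K} + μ (⋃ n : ℕ, {f | ∃ s t : X, dist s t ≤ θ n ∧
        1 / ((n : ℝ) + 1) < dist (f s) (f t)}) := measure_union_le _ _
    _ ≤ 0 + ∑' n, (e n : ℝ≥0∞) := by
        refine add_le_add (h0 μ hμ).le ((measure_iUnion_le _).trans ?_)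
        exact ENNReal.tsum_le_tsum fun n => hθ' n μ hμ
    _ ≤ ε := by rw [zero_add]; exact hesum.le

end Pool.Agent.H54.M7
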