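import Mathlib

set_option autoImplicit false

/-! Laws on `C(X, E)`: finite-dimensional distributions determine the law, tightness from moduli of
continuity, weak limits of nearby random variables, Brownian marginals. -/

namespace Pool.Agent.H54.M7

open MeasureTheory Filter Topology Set ProbabilityTheory
open scoped NNReal ENNReal

section Fdd

variable {X E : Type*} [TopologicalSpace X] [TopologicalSpace.SeparableSpace X]
  [TopologicalSpace E] [PolishSpace E] [MeasurableSpace E] [BorelSpace E]
  [MeasurableSpace C(X, E)] [BorelSpace C(X, E)] [StandardBorelSpace C(X, E)]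

omit [TopologicalSpace.SeparableSpace X] [PolishSpace E] [StandardBorelSpace C(X, E)] in
lemma measurable_eval (t : X) : Measurable fun f : C(X, E) => f t :=
  (continuous_eval_const t).measurable

/-- Two finite measures on `C(X, E)` with the same finite-dimensional distributions are equal. -/
theorem ext_fdd {μ ν : Measure C(X, E)} [IsFiniteMeasure μ] [IsFiniteMeasure ν]
    (h : ∀ J : Finset X, μ.map (fun f (j : J) => f j) = ν.map (fun f (j : J) => f j)) : μ = ν := by
  obtain ⟨D, hDc, hD⟩ := TopologicalSpace.exists_countable_dense X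
  have hDc' : Countable D := hDc.to_subtype
  let Φ : C(X, E) → (D → E) := fun f d => f d
  have hΦm : Measurable Φ := measurable_pi_lambda _ fun d => measurable_eval _
  have hΦi : Function.Injective Φ := by
    intro f g hfg
    apply DFunLike.coe_injective
    refine f.continuous.ext_on hD g.continuous ?_
    intro x hx
    exact congrFun hfg ⟨x, hx⟩
  have hemb : MeasurableEmbedding Φ := hΦm.measurableEmbedding hΦi
  have key : μ.map Φ = ν.map Φ := by
    have h1 := isProjectiveLimit_map (X := fun (d : D) (f : C(X, E)) => f d) (P := μ)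
      hΦm.aemeasurable
    have h2 := isProjectiveLimit_map (X := fun (d : D) (f : C(X, E)) => f d) (P := ν)
      hΦm.aemeasurable
    have h3 : (fun I : Finset D => μ.map fun f => I.restrict fun (d : D) => f d) =
        fun I : Finset D => ν.map fun f => I.restrict fun (d : D) => f d := by
      funext I
      classical
      let J : Finset X := I.image Subtype.val
      have hJ : ∀ i : I, ((i : D) : X) ∈ J := fun i => Finset.mem_image_of_mem _ i.2
      let r : (J → E) → (I → E) := fun g i => g ⟨((i : D) : X), hJ i⟩
      have hr : Measurable r := measurable_pi_lambda _ fun i => measurable_pi_apply _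
      have hm : Measurable fun (f : C(X, E)) (j : J) => f j :=
        measurable_pi_lambda _ fun j => measurable_eval _
      have e : ∀ ρ : Measure C(X, E), ρ.map (fun f => I.restrict fun (d : D) => f d) =
          (ρ.map fun f (j : J) => f j).map r := by
        intro ρ
        rw [Measure.map_map hr hm]
        rfl
      rw [e μ, e ν, h J]
    rw [h3] at h1
    exact h1.unique h2
  calc μ = (μ.map Φ).comap Φ := (hemb.comap_map μ).symm
    _ = (ν.map Φ).comap Φ := by rw [key]
    _ = ν := hemb.comap_map ν

end Fdd

section Brown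

/-- Two laws on `C(ℝ≥0, ℝ)` under which the rescaled coordinate process is a Brownian motion
are equal. -/
theorem brown_unique [MeasurableSpace C(ℝ≥0, ℝ)] [BorelSpace C(ℝ≥0, ℝ)] {c : ℝ} (hc : c ≠ 0)
    {μ ν : Measure C(ℝ≥0, ℝ)} [IsFiniteMeasure μ] [IsFiniteMeasure ν]
    (hμ : IsPreBrownianReal (fun (t : ℝ≥0) (f : C(ℝ≥0, ℝ)) => c⁻¹ * f t) μ)
    (hν : IsPreBrownianReal (fun (t : ℝ≥0) (f : C(ℝ≥0, ℝ)) => c⁻¹ * f t) ν) : μ = ν := by
  apply ext_fdd
  intro J
  have key : ∀ ρ : Measure C(ℝ≥0, ℝ),
      IsPreBrownianReal (fun (t : ℝ≥0) (f : C(ℝ≥0, ℝ)) => c⁻¹ * f t) ρ →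
      ρ.map (fun f (j : J) => f j) = (BrownianReal.projectiveFamily J).map fun g j => c * g j := by
    intro ρ hρ
    have h1 := (hρ.hasLaw J).map_eq
    rw [← h1, Measure.map_map (by fun_prop)]
    · congr 1
      funext f j
      simp only [Function.comp_apply, Finset.restrict_def]
      field_simp
    · refine measurable_pi_lambda _ fun j => ?_
      exact (measurable_eval _).const_mul _
  rw [key μ hμ, key ν hν]

end Brown

section Near

variable {X : Type*} [PseudoMetricSpace X] [MeasurableSpace X] [BorelSpace X]

/-- Random variables which are close in probability to weakly convergent ones (different probability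
spaces for different indices are allowed). -/
theorem near_limit {Ω : ℕ → Type*} [∀ m, MeasurableSpace (Ω m)] (P : ∀ m, Measure (Ω m))
    [∀ m, IsProbabilityMeasure (P m)] (Y Z : ∀ m, Ω m → X)
    (hY : ∀ m, AEMeasurable (Y m) (P m)) (hZ : ∀ m, AEMeasurable (Z m) (P m))
    {μs νs : ℕ → ProbabilityMeasure X} (hμ : ∀ m, (μs m : Measure X) = (P m).map (Y m))
    (hν : ∀ m, (νs m : Measure X) = (P m).map (Z m)) {ν : ProbabilityMeasure X}
    (h : Tendsto μs atTop (𝓝 ν))
    (hd : ∀ ε > 0, Tendsto (fun m => (P m) {ω | ε < dist (Y m ω) (Z m ω)}) atTop (𝓝 0)) :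
    Tendsto νs atTop (𝓝 ν) := by
  rw [tendsto_iff_forall_lipschitz_integral_tendsto] at h ⊢
  intro f hb hl
  have h1 := h f hb hl
  obtain ⟨C, hC⟩ := hb
  obtain ⟨L, hL⟩ := hl
  -- reduce to the difference of the integrals
  have hfc : Continuous f := hL.continuous
  have hbd : ∃ M : ℝ, 0 ≤ M ∧ ∀ x, |f x| ≤ M := by
    by_cases hne : Nonempty X
    · obtain ⟨x0⟩ := hne
      refine ⟨|f x0| + C, add_nonneg (abs_nonneg _) (dist_nonneg.trans (hC x0 x0)), fun x => ?_⟩
      have := hC x x0
      rw [Real.dist_eq] at this
      calc |f x| = |f x0 + (f x - f x0)| := by ring_nf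
        _ ≤ |f x0| + |f x - f x0| := abs_add_le _ _
        _ ≤ _ := by linarith
    · exact ⟨0, le_rfl, fun x => (hne ⟨x⟩).elim⟩
  obtain ⟨M, hM0, hM⟩ := hbd
  have hint : ∀ (m : ℕ) (W : Ω m → X), AEMeasurable W (P m) → Integrable (fun ω => f (W ω)) (P m) := by
    intro m W hW
    refine Integrable.of_bound (hfc.measurable.comp_aemeasurable hW).aestronglyMeasurable M ?_
    exact Eventually.of_forall fun ω => by rw [Real.norm_eq_abs]; exact hM _
  have e1 : ∀ m, ∫ x, f x ∂(μs m : Measure X) = ∫ ω, f (Y m ω) ∂(P m) := by
    intro m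
    rw [hμ m, integral_map (hY m) hfc.aestronglyMeasurable]
  have e2 : ∀ m, ∫ x, f x ∂(νs m : Measure X) = ∫ ω, f (Z m ω) ∂(P m) := by
    intro m
    rw [hν m, integral_map (hZ m) hfc.aestronglyMeasurable]
  have hdiff : Tendsto (fun m => ∫ x, f x ∂(νs m : Measure X) - ∫ x, f x ∂(μs m : Measure X)) atTop
      (𝓝 0) := by
    rw [Metric.tendsto_atTop]
    intro ε hε
    have hL1 : 0 < (L : ℝ) + 1 := by positivity
    obtain ⟨N, hN⟩ := (ENNReal.tendsto_atTop_zero.1 (hd (ε / (4 * (L + 1))) (by positivity)))
      (ENNReal.ofReal (ε / (8 * (M + 1)))) (by rw [gt_iff_lt, ENNReal.ofReal_pos]; positivity)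
    refine ⟨N, fun m hm => ?_⟩
    rw [Real.dist_eq, sub_zero, e1, e2, ← integral_sub (hint m _ (hZ m)) (hint m _ (hY m))]
    set B0 := {ω | ε / (4 * (L + 1)) < dist (Y m ω) (Z m ω)} with hB0
    set B := toMeasurable (P m) B0 with hB
    have hBn : NullMeasurableSet B (P m) := (measurableSet_toMeasurable _ _).nullMeasurableSet
    have hBr : (P m).real B ≤ ε / (8 * (M + 1)) := by
      have := hN m hm
      rw [Measure.real, hB, measure_toMeasurable]
      exact ENNReal.toReal_le_of_le_ofReal (by positivity) this
    calc |∫ ω, (f (Z m ω) - f (Y m ω)) ∂(P m)|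
        ≤ ∫ ω, |f (Z m ω) - f (Y m ω)| ∂(P m) := abs_integral_le_integral_abs
      _ ≤ ∫ ω, (B.indicator (fun _ => 2 * M) ω + ε / 4) ∂(P m) := by
          apply integral_mono_of_nonneg (Eventually.of_forall fun _ => abs_nonneg _)
          · exact ((integrable_const _).indicator₀ hBn).add (integrable_const _)
          · refine Eventually.of_forall fun ω => ?_
            dsimp only
            by_cases hω : ω ∈ B
            · rw [indicator_of_mem hω]
              have h2 := hM (Z m ω)
              have h3 := hM (Y m ω)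
              have := abs_sub (f (Z m ω)) (f (Y m ω))
              linarith
            · rw [indicator_of_notMem hω, zero_add]
              have h2 : dist (Y m ω) (Z m ω) ≤ ε / (4 * (L + 1)) :=
                not_lt.1 fun h => hω (subset_toMeasurable _ _ h)
              have h3 := hL.dist_le_mul (Z m ω) (Y m ω)
              rw [Real.dist_eq, dist_comm] at h3
              calc |f (Z m ω) - f (Y m ω)| ≤ L * dist (Y m ω) (Z m ω) := h3
                _ ≤ (L + 1) * (ε / (4 * (L + 1))) := by
                    apply mul_le_mul (by linarith) h2 dist_nonneg hL1.le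
                _ = ε / 4 := by field_simp
      _ = (P m).real B * (2 * M) + ε / 4 := by
          rw [integral_add ((integrable_const _).indicator₀ hBn) (integrable_const _),
            integral_indicator₀ hBn]
          simp
      _ ≤ ε / (8 * (M + 1)) * (2 * M) + ε / 4 := by gcongr
      _ ≤ ε / 4 + ε / 4 := by
          have : ε / (8 * (M + 1)) * (2 * M) ≤ ε / (8 * (M + 1)) * (2 * (M + 1)) := by gcongr; linarith
          have h4 : ε / (8 * (M + 1)) * (2 * (M + 1)) = ε / 4 := by field_simp; ring
          linarith
      _ < ε := by linarith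
  have := hdiff.add h1
  simpa using this

end Near

end Pool.Agent.H54.M7
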