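import Pool.Agent.H54.M7.Limit
import Pool.Agent.H54.M7.Cont

set_option autoImplicit false

/-! Joint convergence of (curve, driving function): the form used at the end of module M7. -/

namespace Pool.Agent.H54.M7

open MeasureTheory Filter Topology Set ProbabilityTheory
open scoped NNReal ENNReal BoundedContinuousFunction

section Pre

variable {Z : Type*} [TopologicalSpace Z] [MeasurableSpace Z] [OpensMeasurableSpace Z]

/-- A weak limit of processes whose finite-dimensional distributions converge to those of Brownian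
motion is a pre-Brownian motion. -/
theorem preBrownian_limit (W : ℝ≥0 → Z → ℝ) (hW : ∀ t, Continuous (W t))
    {μs : ℕ → ProbabilityMeasure Z} {μ : ProbabilityMeasure Z} (h : Tendsto μs atTop (𝓝 μ))
    (hf : ∀ (J : Finset ℝ≥0) (f : (J → ℝ) →ᵇ ℝ),
      Tendsto (fun m => ∫ z, f (fun j => W j z) ∂(μs m : Measure Z)) atTop
        (𝓝 (∫ x, f x ∂(BrownianReal.projectiveFamily J)))) :
    IsPreBrownianReal W (μ : Measure Z) where
  hasLaw J := by
    have hc : Continuous fun z => (fun j : J => W j z) := continuous_pi fun j => hW j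
    refine ⟨hc.measurable.aemeasurable, ?_⟩
    have hpm : IsProbabilityMeasure ((μ : Measure Z).map fun z => (fun j : J => W j z)) :=
      Measure.isProbabilityMeasure_map hc.measurable.aemeasurable
    apply ext_of_forall_integral_eq_of_IsFiniteMeasure
    intro f
    have e : ∀ ρ : Measure Z, ∫ x, f x ∂(ρ.map fun z => J.restrict (W · z)) =
        ∫ z, f (fun j => W j z) ∂ρ := by
      intro ρ
      rw [integral_map]
      · rfl
      · exact hc.measurable.aemeasurable
      · exact f.continuous.aestronglyMeasurable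
    rw [e]
    have h1 := (ProbabilityMeasure.tendsto_iff_forall_integral_tendsto.1 h)
      (f.compContinuous ⟨_, hc⟩)
    exact tendsto_nhds_unique h1 (hf J f)

end Pre

section JB

variable {E : Type*} [TopologicalSpace E] [PolishSpace E] [MeasurableSpace E] [BorelSpace E]
  [MeasurableSpace C(ℝ≥0, ℝ)] [BorelSpace C(ℝ≥0, ℝ)]

/-- Convergence of the joint laws of (curve, driving function) when the driving function tends to
`c` times a Brownian motion and determines the curve in the limit. -/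
theorem joint_brown {c : ℝ} (hc : c ≠ 0) (μs : ℕ → ProbabilityMeasure (E × C(ℝ≥0, ℝ)))
    (ht : IsTightMeasureSet {x | ∃ m, (μs m : Measure (E × C(ℝ≥0, ℝ))) = x})
    {A : ℕ → Set (E × C(ℝ≥0, ℝ))}
    (hA : Tendsto (fun m => (μs m : Measure (E × C(ℝ≥0, ℝ))) (A m)) atTop (𝓝 1))
    (hT : ∀ e e' f, (e, f) ∈ Ls A → (e', f) ∈ Ls A → e = e')
    (hB : ∀ (J : Finset ℝ≥0) (f : (J → ℝ) →ᵇ ℝ),
      Tendsto (fun m => ∫ z, f (fun j => c⁻¹ * z.2 j) ∂(μs m : Measure (E × C(ℝ≥0, ℝ)))) atTop
        (𝓝 (∫ x, f x ∂(BrownianReal.projectiveFamily J)))) :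
    ∃ μ : ProbabilityMeasure (E × C(ℝ≥0, ℝ)), Tendsto μs atTop (𝓝 μ) ∧
      (μ : Measure (E × C(ℝ≥0, ℝ))) (Ls A)ᶜ = 0 ∧
      IsBrownianReal (fun (t : ℝ≥0) (z : E × C(ℝ≥0, ℝ)) => c⁻¹ * z.2 t)
        (μ : Measure (E × C(ℝ≥0, ℝ))) := by
  have hW : ∀ t : ℝ≥0, Continuous fun z : E × C(ℝ≥0, ℝ) => c⁻¹ * z.2 t := fun t =>
    continuous_const.mul ((continuous_eval_const t).comp continuous_snd)
  have pre : ∀ (μ : ProbabilityMeasure (E × C(ℝ≥0, ℝ))) (k : ℕ → ℕ), StrictMono k →
      Tendsto (fun m => μs (k m)) atTop (𝓝 μ) →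
      IsPreBrownianReal (fun (t : ℝ≥0) (z : E × C(ℝ≥0, ℝ)) => c⁻¹ * z.2 t)
        (μ : Measure (E × C(ℝ≥0, ℝ))) := by
    intro μ k hk hμ
    exact preBrownian_limit _ hW hμ fun J f => (hB J f).comp hk.tendsto_atTop
  have tr : ∀ μ : ProbabilityMeasure (E × C(ℝ≥0, ℝ)),
      IsPreBrownianReal (fun (t : ℝ≥0) (z : E × C(ℝ≥0, ℝ)) => c⁻¹ * z.2 t)
        (μ : Measure (E × C(ℝ≥0, ℝ))) →
      IsPreBrownianReal (fun (t : ℝ≥0) (f : C(ℝ≥0, ℝ)) => c⁻¹ * f t)
        ((μ : Measure (E × C(ℝ≥0, ℝ))).map Prod.snd) := by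
    intro μ h
    refine ⟨fun J => ⟨?_, ?_⟩⟩
    · exact (measurable_pi_lambda _ fun j => (measurable_eval _).const_mul _).aemeasurable
    · rw [← (h.hasLaw J).map_eq, Measure.map_map]
      · rfl
      · exact measurable_pi_lambda _ fun j => (measurable_eval _).const_mul _
      · exact measurable_snd
  obtain ⟨μ, hμ, hμA⟩ := joint_limit μs ht hA hT (by
    intro μ μ' k k' hk hk' h h'
    have : IsProbabilityMeasure ((μ : Measure (E × C(ℝ≥0, ℝ))).map Prod.snd) :=
      Measure.isProbabilityMeasure_map measurable_snd.aemeasurable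
    have : IsProbabilityMeasure ((μ' : Measure (E × C(ℝ≥0, ℝ))).map Prod.snd) :=
      Measure.isProbabilityMeasure_map measurable_snd.aemeasurable
    exact brown_unique hc (tr μ (pre μ k hk h)) (tr μ' (pre μ' k' hk' h')))
  refine ⟨μ, hμ, hμA, pre μ id strictMono_id hμ, ?_⟩
  exact Eventually.of_forall fun z => continuous_const.mul z.2.continuous

end JB

/-- Image of the joint limit in another space (the space of curves modulo reparametrisation). -/
theorem push_limit {X : Type*} [PseudoMetricSpace X] [MeasurableSpace X] [BorelSpace X]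
    {Z : Type*} [TopologicalSpace Z] [MeasurableSpace Z] [OpensMeasurableSpace Z] [BorelSpace Z]
    {μs : ℕ → ProbabilityMeasure Z} {μ : ProbabilityMeasure Z} (h : Tendsto μs atTop (𝓝 μ))
    {g : Z → X} (hg : Continuous g)
    {Ω : ℕ → Type*} [∀ m, MeasurableSpace (Ω m)] (P : ∀ m, Measure (Ω m))
    [∀ m, IsProbabilityMeasure (P m)] (Y : ∀ m, Ω m → Z) (hY : ∀ m, AEMeasurable (Y m) (P m))
    (hYμ : ∀ m, (μs m : Measure Z) = (P m).map (Y m))
    (V : ∀ m, Ω m → X) (hV : ∀ m, AEMeasurable (V m) (P m))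
    {νs : ℕ → ProbabilityMeasure X} (hVν : ∀ m, (νs m : Measure X) = (P m).map (V m))
    (hd : ∀ ε > 0, Tendsto (fun m => (P m) {ω | ε < dist (g (Y m ω)) (V m ω)}) atTop (𝓝 0)) :
    Tendsto νs atTop (𝓝 (μ.map hg.measurable.aemeasurable)) := by
  have h1 : Tendsto (fun m => (μs m).map (f := g) hg.measurable.aemeasurable) atTop
      (𝓝 (μ.map hg.measurable.aemeasurable)) :=
    ProbabilityMeasure.tendsto_map_of_tendsto_of_continuous μs μ h hg
  refine near_limit P (fun m ω => g (Y m ω)) V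
    (fun m => hg.measurable.comp_aemeasurable (hY m)) hV (fun m => ?_) hVν h1 hd
  rw [ProbabilityMeasure.toMeasure_map, hYμ m,
    AEMeasurable.map_map_of_aemeasurable hg.measurable.aemeasurable (hY m)]
  rfl

end Pool.Agent.H54.M7
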