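import Mathlib

set_option autoImplicit false

/-! Abstract limit arguments for module M7 (5.6, 5.7 of Q1_M7.md).

* `closure_trick`: if `μ m → μ` weakly and `μ m (A m) → 1` then `μ` is carried by
  `Ls A = ⋂ M, closure (⋃ m ≥ M, A m)` (replaces the Skorokhod representation).
* `law_unique`: two laws on `E × F` with the same second marginal, both carried by Borel subsets of a
  relation in which the second coordinate determines the first, are equal (Lusin-Souslin).
* `joint_limit`: tightness + these two facts give convergence of the whole sequence. -/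

namespace Pool.Agent.H54.M7

open MeasureTheory Filter Topology Set

/-- `limsup` of a sequence of sets in the topological sense -/
def Ls {X : Type*} [TopologicalSpace X] (A : ℕ → Set X) : Set X := ⋂ M, closure (⋃ m, ⋃ _ : M ≤ m, A m)

section Closed

variable {X : Type*} [TopologicalSpace X]

lemma isClosed_Ls (A : ℕ → Set X) : IsClosed (Ls A) := isClosed_iInter fun _ => isClosed_closure

lemma Ls_mono {A B : ℕ → Set X} (h : ∀ m, A m ⊆ B m) : Ls A ⊆ Ls B :=
  iInter_mono fun _ => closure_mono (iUnion_mono fun m => iUnion_mono fun _ => h m)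

lemma Ls_subseq (A : ℕ → Set X) {k : ℕ → ℕ} (hk : Tendsto k atTop atTop) :
    Ls (fun m => A (k m)) ⊆ Ls A := by
  intro x hx
  rw [Ls, mem_iInter] at hx ⊢
  intro M
  obtain ⟨M', hM'⟩ := (tendsto_atTop.1 hk M).exists_forall_of_atTop
  refine closure_mono ?_ (hx M')
  intro y hy
  simp only [mem_iUnion, exists_prop] at hy ⊢
  obtain ⟨m, hm, hy⟩ := hy
  exact ⟨k m, hM' m hm, hy⟩

/-- a point of the upper limit is the limit of a sequence of points of the sets -/
lemma exists_seq [FirstCountableTopology X] {A : ℕ → Set X} {x : X} (hx : x ∈ Ls A) :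
    ∃ k : ℕ → ℕ, ∃ y : ℕ → X, (∀ n, n ≤ k n) ∧ (∀ n, y n ∈ A (k n)) ∧ Tendsto y atTop (𝓝 x) := by
  obtain ⟨U, hU⟩ := (𝓝 x).exists_antitone_basis
  have h : ∀ n, ∃ m, n ≤ m ∧ ∃ y ∈ A m, y ∈ U n := by
    intro n
    have h1 := mem_iInter.1 hx n
    obtain ⟨y, hy1, hy2⟩ := mem_closure_iff_nhds.1 h1 (U n) (hU.1.mem_of_mem trivial)
    simp only [mem_iUnion, exists_prop] at hy2
    obtain ⟨m, hm, hy⟩ := hy2
    exact ⟨m, hm, y, hy, hy1⟩
  choose k hk y hy hyU using h
  refine ⟨k, y, hk, hy, ?_⟩
  exact hU.tendsto hyU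

end Closed

section Trick

variable {X : Type*} [TopologicalSpace X] [MeasurableSpace X] [OpensMeasurableSpace X]
  [HasOuterApproxClosed X]

/-- The closed-set trick. -/
theorem closure_trick {μ : ProbabilityMeasure X} {μs : ℕ → ProbabilityMeasure X}
    (h : Tendsto μs atTop (𝓝 μ)) {A : ℕ → Set X}
    (hA : Tendsto (fun m => (μs m : Measure X) (A m)) atTop (𝓝 1)) : (μ : Measure X) (Ls A)ᶜ = 0 := by
  have key : ∀ M, (μ : Measure X) (closure (⋃ m, ⋃ _ : M ≤ m, A m))ᶜ = 0 := by
    intro M
    set C := closure (⋃ m, ⋃ _ : M ≤ m, A m) with hC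
    have hcl : IsClosed C := isClosed_closure
    have h1 : ∀ᶠ m in atTop, (μs m : Measure X) (A m) ≤ (μs m : Measure X) C := by
      filter_upwards [eventually_ge_atTop M] with m hm
      refine measure_mono (Subset.trans ?_ subset_closure)
      intro x hx
      exact mem_iUnion.2 ⟨m, mem_iUnion.2 ⟨hm, hx⟩⟩
    have h2 : (1 : ENNReal) ≤ limsup (fun m => (μs m : Measure X) C) atTop := by
      calc (1 : ENNReal) = limsup (fun m => (μs m : Measure X) (A m)) atTop := hA.limsup_eq.symm
        _ ≤ _ := limsup_le_limsup h1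
    have h3 : limsup (fun m => (μs m : Measure X) C) atTop ≤ (μ : Measure X) C := by
      have := FiniteMeasure.limsup_measure_closed_le_of_tendsto
        ((ProbabilityMeasure.tendsto_nhds_iff_toFiniteMeasure_tendsto_nhds atTop).1 h) hcl
      exact this
    have h4 : (μ : Measure X) C = 1 := le_antisymm prob_le_one (h2.trans h3)
    rw [prob_compl_eq_one_sub hcl.measurableSet, h4, tsub_self]
  unfold Ls
  rw [compl_iInter]
  exact measure_iUnion_null key

end Trick

section Unique

variable {E F : Type*} [MeasurableSpace E] [MeasurableSpace F] [StandardBorelSpace E]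
  [StandardBorelSpace F]

/-- Two laws with the same second marginal, carried by a relation in which the second coordinate
determines the first, are equal. -/
theorem law_unique {T : Set (E × F)} (hT : ∀ e e' f, (e, f) ∈ T → (e', f) ∈ T → e = e')
    {μ ν : Measure (E × F)} {R S : Set (E × F)} (hR : MeasurableSet R) (hS : MeasurableSet S)
    (hRT : R ⊆ T) (hST : S ⊆ T) (hμ : μ Rᶜ = 0) (hν : ν Sᶜ = 0)
    (hm : μ.map Prod.snd = ν.map Prod.snd) : μ = ν := by
  set Q := R ∪ S with hQ
  have hQm : MeasurableSet Q := hR.union hS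
  have hQT : Q ⊆ T := union_subset hRT hST
  have hinj : InjOn (Prod.snd : E × F → F) Q := by
    rintro ⟨e, f⟩ h1 ⟨e', f'⟩ h2 h3
    dsimp only at h3
    subst h3
    rw [hT e e' f (hQT h1) (hQT h2)]
  have gen : ∀ (ρ : Measure (E × F)), ρ Qᶜ = 0 → ∀ A, MeasurableSet A →
      ρ A = ρ.map Prod.snd (Prod.snd '' (A ∩ Q)) := by
    intro ρ hρ A hA
    have hAm : MeasurableSet (Prod.snd '' (A ∩ Q)) :=
      (hA.inter hQm).image_of_measurable_injOn measurable_snd (hinj.mono inter_subset_right)
    rw [Measure.map_apply measurable_snd hAm]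
    have h1 : ρ A = ρ (A ∩ Q) := by
      refine le_antisymm ?_ (measure_mono inter_subset_left)
      calc ρ A ≤ ρ (A ∩ Q ∪ Qᶜ) := measure_mono (by
            intro x hx; by_cases hxQ : x ∈ Q
            · exact Or.inl ⟨hx, hxQ⟩
            · exact Or.inr hxQ)
        _ ≤ ρ (A ∩ Q) + ρ Qᶜ := measure_union_le _ _
        _ = ρ (A ∩ Q) := by rw [hρ, add_zero]
    rw [h1]
    refine le_antisymm (measure_mono (subset_preimage_image _ _)) ?_
    calc ρ (Prod.snd ⁻¹' (Prod.snd '' (A ∩ Q))) ≤ ρ (A ∩ Q ∪ Qᶜ) := measure_mono (by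
          rintro x ⟨y, hy, hyx⟩
          by_cases hxQ : x ∈ Q
          · left
            have := hinj hy.2 hxQ hyx
            rw [← this]; exact hy
          · exact Or.inr hxQ)
      _ ≤ ρ (A ∩ Q) + ρ Qᶜ := measure_union_le _ _
      _ = ρ (A ∩ Q) := by rw [hρ, add_zero]
  have hμQ : μ Qᶜ = 0 := measure_mono_null (compl_subset_compl.2 subset_union_left) hμ
  have hνQ : ν Qᶜ = 0 := measure_mono_null (compl_subset_compl.2 subset_union_right) hν
  ext A hA
  rw [gen μ hμQ A hA, gen ν hνQ A hA, hm]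

end Unique

section Joint

variable {E F : Type*} [TopologicalSpace E] [PolishSpace E] [MeasurableSpace E] [BorelSpace E]
  [TopologicalSpace F] [PolishSpace F] [MeasurableSpace F] [BorelSpace F]

/-- Tightness, asymptotic relations whose upper limit determines the first coordinate, and
uniqueness of the second marginal of the subsequential limits give convergence of the joint laws; the
limit is carried by the upper limit of the relations. -/
theorem joint_limit (μs : ℕ → ProbabilityMeasure (E × F))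
    (ht : IsTightMeasureSet {x | ∃ m, (μs m : Measure (E × F)) = x})
    {A : ℕ → Set (E × F)} (hA : Tendsto (fun m => (μs m : Measure (E × F)) (A m)) atTop (𝓝 1))
    (hT : ∀ e e' f, (e, f) ∈ Ls A → (e', f) ∈ Ls A → e = e')
    (hν : ∀ (μ μ' : ProbabilityMeasure (E × F)) (k k' : ℕ → ℕ), StrictMono k → StrictMono k' →
      Tendsto (fun m => μs (k m)) atTop (𝓝 μ) → Tendsto (fun m => μs (k' m)) atTop (𝓝 μ') →
      (μ : Measure (E × F)).map Prod.snd = (μ' : Measure (E × F)).map Prod.snd) :
    ∃ μ : ProbabilityMeasure (E × F), Tendsto μs atTop (𝓝 μ) ∧ (μ : Measure (E × F)) (Ls A)ᶜ = 0 := by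
  let _ := TopologicalSpace.upgradeIsCompletelyMetrizable (E × F)
  have hc : IsCompact (closure (range μs)) := by
    apply isCompact_closure_of_isTightMeasureSet
    convert ht using 1
    ext x
    constructor
    · rintro ⟨_, ⟨m, rfl⟩, hx⟩; exact ⟨m, hx⟩
    · rintro ⟨m, hx⟩; exact ⟨_, ⟨m, rfl⟩, hx⟩
  have hmem : ∀ m, μs m ∈ closure (range μs) := fun m => subset_closure ⟨m, rfl⟩
  have sub : ∀ k : ℕ → ℕ, StrictMono k → ∀ μ : ProbabilityMeasure (E × F),
      Tendsto (fun m => μs (k m)) atTop (𝓝 μ) → (μ : Measure (E × F)) (Ls A)ᶜ = 0 := by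
    intro k hk μ hμ
    have h1 : (μ : Measure (E × F)) (Ls fun m => A (k m))ᶜ = 0 :=
      closure_trick hμ (hA.comp hk.tendsto_atTop)
    exact measure_mono_null (compl_subset_compl.2 (Ls_subseq A hk.tendsto_atTop)) h1
  obtain ⟨μ, -, k, hk, hμ⟩ := hc.tendsto_subseq hmem
  have h2 := sub k hk μ hμ
  refine ⟨μ, ?_, h2⟩
  apply tendsto_of_subseq_tendsto
  intro ns hns
  obtain ⟨φ, hφ, hφ'⟩ := strictMono_subseq_of_tendsto_atTop hns
  obtain ⟨μ', -, k', hk', hμ'⟩ := hc.tendsto_subseq (fun m => hmem (ns (φ m)))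
  refine ⟨φ ∘ k', ?_⟩
  have hs : StrictMono fun m => ns (φ (k' m)) := fun a b hab => hφ' (hk' hab)
  have h4 := sub (fun m => ns (φ (k' m))) hs μ' hμ'
  have heq : (μ' : Measure (E × F)) = (μ : Measure (E × F)) :=
    law_unique hT (isClosed_Ls A).measurableSet (isClosed_Ls A).measurableSet Subset.rfl Subset.rfl
      h4 h2 (hν μ' μ _ k hs hk hμ' hμ)
  have : μ' = μ := Subtype.ext heq
  rw [← this]
  exact hμ'

end Joint

end Pool.Agent.H54.M7
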