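import Pool.Agent.H83.Lo.Montel
import Pool.Agent.H83.Lo.Julia

set_option autoImplicit false

/-! Convergence at the start of the chain (3.7 of Q1_M7.md): the normalised conformal maps of the
first polygon converge to the chart. -/

namespace Pool.Agent.H54.M7

open Complex Metric Set Filter Topology
open Pool.Agent.H83.Lo

/-- Maximum principle for imaginary parts on a bounded open set. -/
theorem max_bdd {U : Set ℂ} (hU : IsOpen U) (hb : Bornology.IsBounded U) {F : ℂ → ℂ}
    (hF : DifferentiableOn ℂ F U) {M : ℝ}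
    (h : ∀ ζ ∈ frontier U, ∀ ε > 0, ∀ᶠ z in 𝓝[U] ζ, (F z).im < M + ε) :
    ∀ z ∈ U, (F z).im ≤ M := by
  intro z0 hz0
  by_contra hcon
  rw [not_le] at hcon
  set η := (F z0).im - M with hη
  have hη0 : 0 < η := sub_pos.2 hcon
  set K := {z | z ∈ U ∧ M + η / 2 ≤ (F z).im} with hK
  have hFc : ContinuousOn F U := hF.continuousOn
  have hKcl : IsClosed K := by
    rw [← isOpen_compl_iff, isOpen_iff_mem_nhds]
    intro ζ hζ
    by_cases hζU : ζ ∈ U
    · have h1 : (F ζ).im < M + η / 2 := by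
        by_contra h2
        exact hζ ⟨hζU, not_lt.1 h2⟩
      have h2 : ∀ᶠ z in 𝓝 ζ, (F z).im < M + η / 2 :=
        (continuous_im.continuousAt.comp (hFc.continuousAt (hU.mem_nhds hζU))).eventually
          (gt_mem_nhds h1)
      filter_upwards [h2] with z hz hzK
      exact absurd hzK.2 (not_le.2 hz)
    · by_cases hζf : ζ ∈ frontier U
      · have h2 := h ζ hζf (η / 2) (half_pos hη0)
        rw [eventually_nhdsWithin_iff] at h2
        filter_upwards [h2] with z hz hzK
        exact absurd hzK.2 (not_le.2 (hz hzK.1))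
      · have h3 : ζ ∉ closure U := by
          intro h4
          apply hζf
          rw [hU.frontier_eq]
          exact ⟨h4, hζU⟩
        have h4 : (closure U)ᶜ ∈ 𝓝 ζ := isClosed_closure.isOpen_compl.mem_nhds h3
        filter_upwards [h4] with z hz hzK
        exact hz (subset_closure hzK.1)
  have hKc : IsCompact K := Metric.isCompact_of_isClosed_isBounded hKcl (hb.subset fun z hz => hz.1)
  have hKne : K.Nonempty := ⟨z0, hz0, by rw [hη]; linarith⟩
  obtain ⟨z1, hz1, hmax⟩ := hKc.exists_isMaxOn hKne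
    ((continuous_im.comp_continuousOn hFc).mono fun z hz => hz.1)
  have hglob : ∀ z ∈ U, (F z).im ≤ (F z1).im := by
    intro z hz
    by_cases hzK : z ∈ K
    · exact hmax hzK
    · have : (F z).im < M + η / 2 := by
        by_contra h2
        exact hzK ⟨hz, not_lt.1 h2⟩
      exact this.le.trans hz1.2
  -- the set of maximum points is open and compact
  set S := {z | z ∈ U ∧ (F z).im = (F z1).im} with hS
  have hSK : S ⊆ K := fun z hz => ⟨hz.1, hz.2 ▸ hz1.2⟩
  have hSo : IsOpen S := by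
    rw [isOpen_iff_mem_nhds]
    intro z hz
    have hd : ∀ᶠ w in 𝓝 z, DifferentiableAt ℂ (fun w => exp (-I * F w)) w := by
      filter_upwards [hU.mem_nhds hz.1] with w hw
      exact ((hF.differentiableAt (hU.mem_nhds hw)).const_mul _).cexp
    have hn : ∀ w, ‖exp (-I * F w)‖ = Real.exp (F w).im := by
      intro w
      rw [norm_exp]
      congr 1
      simp
    have hlm : IsLocalMax (norm ∘ fun w => exp (-I * F w)) z := by
      filter_upwards [hU.mem_nhds hz.1] with w hw
      simp only [Function.comp_apply, hn]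
      rw [hz.2]
      exact Real.exp_le_exp.2 (hglob w hw)
    have := Complex.norm_eventually_eq_of_isLocalMax hd hlm
    filter_upwards [this, hU.mem_nhds hz.1] with w hw hwU
    refine ⟨hwU, ?_⟩
    rw [hn, hn] at hw
    rw [← hz.2]
    exact Real.exp_injective hw
  have hScl : IsClosed S := by
    have : S = K ∩ {z | z ∈ K ∧ (F z).im = (F z1).im} := by
      ext z
      constructor
      · intro hz; exact ⟨hSK hz, hSK hz, hz.2⟩
      · intro hz; exact ⟨hz.1.1, hz.2.2⟩
    rw [this]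
    apply hKcl.inter
    have hc : ContinuousOn (fun z => (F z).im) K :=
      (continuous_im.comp_continuousOn hFc).mono fun z hz => hz.1
    have := hc.preimage_isClosed_of_isClosed hKcl (isClosed_singleton (x := (F z1).im))
    convert this using 1
    ext z
    simp
  have huniv : S = univ := by
    apply IsClopen.eq_univ ⟨hScl, hSo⟩
    exact ⟨z1, hz1.1, rfl⟩
  have : IsCompact (univ : Set ℂ) := by
    rw [← huniv]
    exact hKc.of_isClosed_subset hScl hSK
  exact noncompact_univ ℂ this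

lemma arg_near_zero {z : ℂ} {p q : ℝ} (hp : 0 < p) (h1 : p ≤ z.re) (h2 : 0 < z.im)
    (h3 : z.im ≤ q) : arg z ≤ Real.pi / 2 * (q / p) := by
  have ha0 : 0 ≤ arg z := arg_nonneg_iff.2 h2.le
  have ha1 : arg z ≤ Real.pi / 2 := by
    have := abs_arg_le_pi_div_two_iff.2 (hp.le.trans h1)
    rwa [abs_of_nonneg ha0] at this
  have hn : p ≤ ‖z‖ := h1.trans (re_le_norm z)
  have hs : Real.sin (arg z) ≤ q / p := by
    rw [sin_arg]
    calc z.im / ‖z‖ ≤ z.im / p := div_le_div_of_nonneg_left h2.le hp hn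
      _ ≤ q / p := by gcongr
  have := Real.mul_le_sin ha0 ha1
  have h4 : 2 / Real.pi * arg z ≤ q / p := this.trans hs
  have hpi := Real.pi_pos
  calc arg z = Real.pi / 2 * (2 / Real.pi * arg z) := by field_simp
    _ ≤ Real.pi / 2 * (q / p) := by gcongr

lemma arg_near_pi {z : ℂ} {p q : ℝ} (hp : 0 < p) (h1 : z.re ≤ -p) (h2 : 0 < z.im)
    (h3 : z.im ≤ q) : Real.pi - Real.pi / 2 * (q / p) ≤ arg z := by
  have ha0 : 0 ≤ arg z := arg_nonneg_iff.2 h2.le
  have ha1 : Real.pi / 2 < arg z := by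
    by_contra hc
    rw [not_lt] at hc
    have : |arg z| ≤ Real.pi / 2 := by rwa [abs_of_nonneg ha0]
    have := abs_arg_le_pi_div_two_iff.1 this
    linarith
  have hn : p ≤ ‖z‖ := by
    have := abs_re_le_norm z
    rw [abs_of_nonpos (by linarith)] at this
    linarith
  have hs : Real.sin (Real.pi - arg z) ≤ q / p := by
    rw [Real.sin_pi_sub, sin_arg]
    calc z.im / ‖z‖ ≤ z.im / p := div_le_div_of_nonneg_left h2.le hp hn
      _ ≤ q / p := by gcongr
  have hle := arg_le_pi z
  have := Real.mul_le_sin (x := Real.pi - arg z) (by linarith) (by linarith)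
  have h4 : 2 / Real.pi * (Real.pi - arg z) ≤ q / p := this.trans hs
  have hpi := Real.pi_pos
  have : Real.pi - arg z ≤ Real.pi / 2 * (q / p) := by
    calc Real.pi - arg z = Real.pi / 2 * (2 / Real.pi * (Real.pi - arg z)) := by field_simp
      _ ≤ Real.pi / 2 * (q / p) := by gcongr
  linarith

/-- the Moebius map of the barrier -/
noncomputable def mb (R : ℝ) (w : ℂ) : ℂ := (w - R) / (w + R)

lemma mb_ne {R : ℝ} {w : ℂ} (hw : w ∈ UH) : w + R ≠ 0 := by
  intro h
  have := congrArg Complex.im h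
  simp at this
  rw [mem_UH] at hw
  linarith

lemma mb_im {R : ℝ} {w : ℂ} : (mb R w).im = 2 * R * w.im / normSq (w + R) := by
  unfold mb
  rw [div_im]
  simp
  ring

lemma mb_re {R : ℝ} {w : ℂ} : (mb R w).re = (normSq w - R ^ 2) / normSq (w + R) := by
  unfold mb
  rw [div_re, normSq_apply w]
  simp
  ring

lemma mb_UH {R : ℝ} (hR : 0 < R) {w : ℂ} (hw : w ∈ UH) : mb R w ∈ UH := by
  rw [mem_UH, mb_im]
  have := normSq_pos.2 (mb_ne (R := R) hw)
  rw [mem_UH] at hw
  positivity

lemma mb_far {R : ℝ} {w : ℂ} (hR : 0 < R) (hw : w ∈ UH) (h : R ≤ ‖w‖) :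
    arg (mb R w) ≤ Real.pi / 2 := by
  have h1 : 0 ≤ (mb R w).re := by
    rw [mb_re]
    have := normSq_pos.2 (mb_ne (R := R) hw)
    apply div_nonneg _ this.le
    rw [normSq_eq_norm_sq]
    nlinarith [norm_nonneg w]
  exact (le_abs_self _).trans (abs_arg_le_pi_div_two_iff.2 h1)

lemma slit_of_UH {z : ℂ} (hz : z ∈ UH) : z ∈ slitPlane := by
  rw [mem_slitPlane_iff]
  exact Or.inr (ne_of_gt hz)

lemma continuousAt_arg_UH {z : ℂ} (hz : z ∈ UH) : ContinuousAt arg z :=
  continuousAt_arg (slit_of_UH hz)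

lemma sub_real_UH {z : ℂ} (hz : z ∈ UH) (s : ℝ) : z - s ∈ UH := by
  rw [mem_UH] at *; simpa using hz

lemma add_real_UH {z : ℂ} (hz : z ∈ UH) (s : ℝ) : z + s ∈ UH := by
  rw [mem_UH] at *; simpa using hz

lemma mb_diff {R : ℝ} {w : ℂ} (hw : w ∈ UH) : DifferentiableAt ℂ (mb R) w := by
  unfold mb
  exact ((differentiableAt_id.sub_const _).div (differentiableAt_id.add_const _) (mb_ne hw))

section Bounds

variable {U : Set ℂ} {f : ℂ → ℂ}

/-- upper bound of the argument -/
theorem arg_upper (hU : IsOpen U) (hb : Bornology.IsBounded U) (hcl : closure U ⊆ UH)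
    (hf : DifferentiableOn ℂ f U) (hm : MapsTo f U UH) {s R δ : ℝ} (hR : 0 < R) (hδ : 0 ≤ δ)
    (h : ∀ ζ ∈ frontier U, ‖ζ‖ < R → Real.pi ≤ arg (ζ - s) + δ ∨
      Tendsto (fun w => arg (f w)) (𝓝[U] ζ) (𝓝 0)) :
    ∀ w ∈ U, arg (f w) ≤ arg (w - s) + δ + 2 * (Real.pi - arg (mb R w)) := by
  have hUH : U ⊆ UH := subset_closure.trans hcl
  have hF : DifferentiableOn ℂ (fun w => log (f w) - log (w - s) + 2 * log (mb R w)) U := by
    intro w hw
    have h1 : DifferentiableAt ℂ f w := hf.differentiableAt (hU.mem_nhds hw)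
    have h2 : DifferentiableAt ℂ (fun w => log (f w)) w := h1.clog (slit_of_UH (hm hw))
    have h3 : DifferentiableAt ℂ (fun w : ℂ => log (w - s)) w :=
      (differentiableAt_id.sub_const _).clog (slit_of_UH (sub_real_UH (hUH hw) s))
    have h4 : DifferentiableAt ℂ (fun w : ℂ => log (mb R w)) w :=
      (mb_diff (hUH hw)).clog (slit_of_UH (mb_UH hR (hUH hw)))
    exact ((h2.sub h3).add (h4.const_mul 2)).differentiableWithinAt
  have him : ∀ w, (log (f w) - log (w - s) + 2 * log (mb R w)).im =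
      arg (f w) - arg (w - s) + 2 * arg (mb R w) := by
    intro w
    simp [log_im]
  have key := max_bdd hU hb hF (M := δ + 2 * Real.pi) (by
    intro ζ hζ ε hε
    simp only [him]
    have hζH : ζ ∈ UH := hcl (frontier_subset_closure hζ)
    have c1 : Tendsto (fun w : ℂ => arg (w - s)) (𝓝[U] ζ) (𝓝 (arg (ζ - s))) := by
      refine Tendsto.mono_left ?_ nhdsWithin_le_nhds
      exact (continuousAt_arg_UH (sub_real_UH hζH s)).tendsto.comp
        (continuousAt_id.sub continuousAt_const)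
    have c2 : Tendsto (fun w : ℂ => arg (mb R w)) (𝓝[U] ζ) (𝓝 (arg (mb R ζ))) := by
      refine Tendsto.mono_left ?_ nhdsWithin_le_nhds
      exact (continuousAt_arg_UH (mb_UH hR hζH)).tendsto.comp (mb_diff hζH).continuousAt
    have e1 : ∀ᶠ w in 𝓝[U] ζ, arg (ζ - s) - ε / 4 < arg (w - s) :=
      c1.eventually (lt_mem_nhds (by linarith))
    have e2 : ∀ᶠ w in 𝓝[U] ζ, arg (mb R w) < arg (mb R ζ) + ε / 4 :=
      c2.eventually (gt_mem_nhds (by linarith))
    have a0 : 0 ≤ arg (ζ - s) := arg_nonneg_iff.2 (le_of_lt (sub_real_UH hζH s))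
    have a1 : arg (mb R ζ) ≤ Real.pi := arg_le_pi _
    by_cases hR' : R ≤ ‖ζ‖
    · have a2 := mb_far hR hζH hR'
      filter_upwards [e1, e2] with w h1 h2
      have a3 : arg (f w) ≤ Real.pi := arg_le_pi _
      linarith
    · rcases h ζ hζ (not_le.1 hR') with h3 | h3
      · filter_upwards [e1, e2] with w h1 h2
        have a3 : arg (f w) ≤ Real.pi := arg_le_pi _
        linarith
      · filter_upwards [e1, e2, h3.eventually (gt_mem_nhds (show (0 : ℝ) < ε / 4 by linarith))]
          with w h1 h2 h4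
        linarith)
  intro w hw
  have := key w hw
  simp only [him] at this
  linarith

/-- lower bound of the argument -/
theorem arg_lower (hU : IsOpen U) (hb : Bornology.IsBounded U) (hcl : closure U ⊆ UH)
    (hf : DifferentiableOn ℂ f U) (hm : MapsTo f U UH) {s R δ : ℝ} (hR : 0 < R) (hδ : 0 ≤ δ)
    (h : ∀ ζ ∈ frontier U, ‖ζ‖ < R → arg (ζ + s) ≤ δ ∨
      Tendsto (fun w => arg (f w)) (𝓝[U] ζ) (𝓝 Real.pi)) :
    ∀ w ∈ U, arg (w + s) ≤ arg (f w) + δ + 2 * (Real.pi - arg (mb R w)) := by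
  have hUH : U ⊆ UH := subset_closure.trans hcl
  have hF : DifferentiableOn ℂ (fun w => log (w + s) - log (f w) + 2 * log (mb R w)) U := by
    intro w hw
    have h1 : DifferentiableAt ℂ f w := hf.differentiableAt (hU.mem_nhds hw)
    have h2 : DifferentiableAt ℂ (fun w => log (f w)) w := h1.clog (slit_of_UH (hm hw))
    have h3 : DifferentiableAt ℂ (fun w : ℂ => log (w + s)) w :=
      (differentiableAt_id.add_const _).clog (slit_of_UH (add_real_UH (hUH hw) s))
    have h4 : DifferentiableAt ℂ (fun w : ℂ => log (mb R w)) w :=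
      (mb_diff (hUH hw)).clog (slit_of_UH (mb_UH hR (hUH hw)))
    exact ((h3.sub h2).add (h4.const_mul 2)).differentiableWithinAt
  have him : ∀ w, (log (w + s) - log (f w) + 2 * log (mb R w)).im =
      arg (w + s) - arg (f w) + 2 * arg (mb R w) := by
    intro w
    simp [log_im]
  have key := max_bdd hU hb hF (M := δ + 2 * Real.pi) (by
    intro ζ hζ ε hε
    simp only [him]
    have hζH : ζ ∈ UH := hcl (frontier_subset_closure hζ)
    have c1 : Tendsto (fun w : ℂ => arg (w + s)) (𝓝[U] ζ) (𝓝 (arg (ζ + s))) := by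
      refine Tendsto.mono_left ?_ nhdsWithin_le_nhds
      exact (continuousAt_arg_UH (add_real_UH hζH s)).tendsto.comp
        (continuousAt_id.add continuousAt_const)
    have c2 : Tendsto (fun w : ℂ => arg (mb R w)) (𝓝[U] ζ) (𝓝 (arg (mb R ζ))) := by
      refine Tendsto.mono_left ?_ nhdsWithin_le_nhds
      exact (continuousAt_arg_UH (mb_UH hR hζH)).tendsto.comp (mb_diff hζH).continuousAt
    have e1 : ∀ᶠ w in 𝓝[U] ζ, arg (w + s) < arg (ζ + s) + ε / 4 :=
      c1.eventually (gt_mem_nhds (by linarith))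
    have e2 : ∀ᶠ w in 𝓝[U] ζ, arg (mb R w) < arg (mb R ζ) + ε / 4 :=
      c2.eventually (gt_mem_nhds (by linarith))
    have e3 : ∀ᶠ w in 𝓝[U] ζ, 0 ≤ arg (f w) := by
      filter_upwards [self_mem_nhdsWithin] with w hw
      exact arg_nonneg_iff.2 (le_of_lt (hm hw))
    have a0 : arg (ζ + s) ≤ Real.pi := arg_le_pi _
    have a1 : arg (mb R ζ) ≤ Real.pi := arg_le_pi _
    by_cases hR' : R ≤ ‖ζ‖
    · have a2 := mb_far hR hζH hR'
      filter_upwards [e1, e2, e3] with w h1 h2 h3
      linarith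
    · rcases h ζ hζ (not_le.1 hR') with h3 | h3
      · filter_upwards [e1, e2, e3] with w h1 h2 h4
        linarith
      · filter_upwards [e1, e2, h3.eventually (lt_mem_nhds
          (show Real.pi - ε / 4 < Real.pi by linarith))] with w h1 h2 h4
        linarith)
  intro w hw
  have := key w hw
  simp only [him] at this
  linarith

end Bounds

/-- the barrier is small at a fixed point -/
lemma mb_small {w : ℂ} (hw : w ∈ UH) {ε : ℝ} (hε : 0 < ε) :
    ∃ R0 : ℝ, 0 < R0 ∧ ∀ R, R0 ≤ R → 2 * (Real.pi - arg (mb R w)) ≤ ε := by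
  have hpi := Real.pi_pos
  have hwi : 0 < w.im := hw
  refine ⟨2 * ‖w‖ + 1 + 4 * Real.pi * w.im / ε, by positivity, fun R hR => ?_⟩
  have hq0 : 0 ≤ 4 * Real.pi * w.im / ε := by positivity
  have hn := norm_nonneg w
  have hR0 : 0 < R := by linarith
  have hR1 : 2 * ‖w‖ ≤ R := by linarith
  have hR2 : 4 * Real.pi * w.im / ε ≤ R := by linarith
  have hns : 0 < normSq (w + R) := normSq_pos.2 (mb_ne hw)
  have h1 : (mb R w).re ≤ -((R ^ 2 / 2) / normSq (w + R)) := by
    rw [mb_re, ← neg_div]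
    apply div_le_div_of_nonneg_right _ hns.le
    rw [normSq_eq_norm_sq]
    nlinarith
  have h2 := arg_near_pi (p := (R ^ 2 / 2) / normSq (w + R)) (q := 2 * R * w.im / normSq (w + R))
    (by positivity) h1 (mb_UH hR0 hw) (by rw [mb_im])
  have h3 : 2 * R * w.im / normSq (w + R) / ((R ^ 2 / 2) / normSq (w + R)) = 4 * w.im / R := by
    field_simp
    ring
  rw [h3] at h2
  have h4 : Real.pi / 2 * (4 * w.im / R) ≤ ε / 2 := by
    rw [div_le_iff₀ hε] at hR2
    rw [← mul_div_assoc, div_le_iff₀ hR0]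
    linarith
  linarith

/-- Boundary condition for the comparison with the half plane: the frontier point `ζ` is either
within `ε` of the negative (positive) half line or `arg f` tends to `0` (to `π`) at `ζ`. -/
def Bdry (U : Set ℂ) (f : ℂ → ℂ) (ε : ℝ) (ζ : ℂ) : Prop :=
  ((∃ r : ℝ, r ≤ 0 ∧ ‖ζ - r‖ ≤ ε) ∨ Tendsto (fun w => arg (f w)) (𝓝[U] ζ) (𝓝 0)) ∧
  ((∃ r : ℝ, 0 ≤ r ∧ ‖ζ - r‖ ≤ ε) ∨ Tendsto (fun w => arg (f w)) (𝓝[U] ζ) (𝓝 Real.pi))

lemma near_neg {ζ : ℂ} (hζ : ζ ∈ UH) {r s ε δ : ℝ} (hs : 0 < s) (hr : r ≤ 0) (h : ‖ζ - r‖ ≤ ε)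
    (hε : ε ≤ s / 2) (hδ : Real.pi * ε ≤ δ * s) : Real.pi ≤ arg (ζ - s) + δ := by
  have h1 : ζ.re - r ≤ ε := by
    have := (abs_le.1 ((abs_re_le_norm (ζ - r)).trans h)).2
    simpa using this
  have h2 : ζ.im ≤ ε := by
    have := (abs_le.1 ((abs_im_le_norm (ζ - r)).trans h)).2
    simpa using this
  have h3 := arg_near_pi (z := ζ - s) (p := s / 2) (q := ε) (half_pos hs)
    (by simp; linarith) (sub_real_UH hζ s) (by simpa using h2)
  have h4 : Real.pi / 2 * (ε / (s / 2)) ≤ δ := by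
    rw [show Real.pi / 2 * (ε / (s / 2)) = Real.pi * ε / s by field_simp, div_le_iff₀ hs]
    exact hδ
  linarith

lemma near_pos {ζ : ℂ} (hζ : ζ ∈ UH) {r s ε δ : ℝ} (hs : 0 < s) (hr : 0 ≤ r) (h : ‖ζ - r‖ ≤ ε)
    (hε : ε ≤ s / 2) (hδ : Real.pi * ε ≤ δ * s) : arg (ζ + s) ≤ δ := by
  have h1 : -ε ≤ ζ.re - r := by
    have := (abs_le.1 ((abs_re_le_norm (ζ - r)).trans h)).1
    simpa using this
  have h2 : ζ.im ≤ ε := by
    have := (abs_le.1 ((abs_im_le_norm (ζ - r)).trans h)).2
    simpa using this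
  have h3 := arg_near_zero (z := ζ + s) (p := s / 2) (q := ε) (half_pos hs)
    (by simp; linarith) (add_real_UH hζ s) (by simpa using h2)
  have h4 : Real.pi / 2 * (ε / (s / 2)) ≤ δ := by
    rw [show Real.pi / 2 * (ε / (s / 2)) = Real.pi * ε / s by field_simp, div_le_iff₀ hs]
    exact hδ
  linarith

/-- pointwise convergence of the arguments -/
theorem arg_lim {ι : Type*} {l : Filter ι} {U : ι → Set ℂ} {f : ι → ℂ → ℂ}
    (hU : ∀ m, IsOpen (U m)) (hb : ∀ m, Bornology.IsBounded (U m)) (hcl : ∀ m, closure (U m) ⊆ UH)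
    (hf : ∀ m, DifferentiableOn ℂ (f m) (U m)) (hm : ∀ m, MapsTo (f m) (U m) UH)
    (hbd : ∀ ε > 0, ∀ᶠ m in l, ∀ ζ ∈ frontier (U m), ‖ζ‖ < 1 / ε → Bdry (U m) (f m) ε ζ)
    {w : ℂ} (hw : w ∈ UH) (hwU : ∀ᶠ m in l, w ∈ U m) :
    Tendsto (fun m => arg (f m w)) l (𝓝 (arg w)) := by
  rw [Metric.tendsto_nhds]
  intro ε hε
  have hpi := Real.pi_pos
  -- the shift
  have c1 : Tendsto (fun s : ℝ => arg (w - s)) (𝓝 0) (𝓝 (arg w)) := by
    have : ContinuousAt (fun s : ℝ => arg (w - s)) 0 := by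
      have h1 : ContinuousAt arg (w - ((0 : ℝ) : ℂ)) := by
        simpa using continuousAt_arg_UH hw
      have h2 : Continuous fun s : ℝ => w - (s : ℂ) := by fun_prop
      exact ContinuousAt.comp (x := (0 : ℝ)) (f := fun s : ℝ => w - (s : ℂ)) h1 h2.continuousAt
    simpa [ContinuousAt] using this
  have c2 : Tendsto (fun s : ℝ => arg (w + s)) (𝓝 0) (𝓝 (arg w)) := by
    have : ContinuousAt (fun s : ℝ => arg (w + s)) 0 := by
      have h1 : ContinuousAt arg (w + ((0 : ℝ) : ℂ)) := by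
        simpa using continuousAt_arg_UH hw
      have h2 : Continuous fun s : ℝ => w + (s : ℂ) := by fun_prop
      exact ContinuousAt.comp (x := (0 : ℝ)) (f := fun s : ℝ => w + (s : ℂ)) h1 h2.continuousAt
    simpa [ContinuousAt] using this
  have e1 := Metric.eventually_nhds_iff.1
    ((c1.eventually (gt_mem_nhds (show arg w < arg w + ε / 4 by linarith))).and
    (c2.eventually (lt_mem_nhds (show arg w - ε / 4 < arg w by linarith))))
  obtain ⟨s0, hs0, hs⟩ := e1
  set s := s0 / 2 with hsdef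
  have hspos : 0 < s := half_pos hs0
  obtain ⟨hs1, hs2⟩ := hs (y := s) (by rw [Real.dist_eq, sub_zero, abs_of_pos hspos]; linarith)
  obtain ⟨R0, hR0, hR⟩ := mb_small hw (show 0 < ε / 4 by linarith)
  have hR' := hR R0 le_rfl
  set δ := ε / 8 with hδ
  have hδ0 : 0 < δ := by positivity
  set e := min (1 / R0) (min (s / 2) (δ * s / Real.pi)) with he
  have he0 : 0 < e := by positivity
  have he1 : e ≤ 1 / R0 := min_le_left _ _
  have he2 : e ≤ s / 2 := (min_le_right _ _).trans (min_le_left _ _)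
  have he3 : Real.pi * e ≤ δ * s := by
    have : e ≤ δ * s / Real.pi := (min_le_right _ _).trans (min_le_right _ _)
    rwa [le_div_iff₀ hpi, mul_comm] at this
  filter_upwards [hbd e he0, hwU] with m hm' hwm
  have hlt : ∀ ζ : ℂ, ‖ζ‖ < R0 → ‖ζ‖ < 1 / e := by
    intro ζ hζ
    refine hζ.trans_le ?_
    rw [le_div_iff₀ he0]
    rw [le_div_iff₀ hR0] at he1
    linarith
  have up := arg_upper (hU m) (hb m) (hcl m) (hf m) (hm m) (s := s) hR0 hδ0.le (by
    intro ζ hζ hζR
    have hζH := hcl m (frontier_subset_closure hζ)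
    rcases (hm' ζ hζ (hlt ζ hζR)).1 with ⟨r, hr, hr'⟩ | h
    · exact Or.inl (near_neg hζH hspos hr hr' he2 he3)
    · exact Or.inr h) w hwm
  have lo := arg_lower (hU m) (hb m) (hcl m) (hf m) (hm m) (s := s) hR0 hδ0.le (by
    intro ζ hζ hζR
    have hζH := hcl m (frontier_subset_closure hζ)
    rcases (hm' ζ hζ (hlt ζ hζR)).2 with ⟨r, hr, hr'⟩ | h
    · exact Or.inl (near_pos hζH hspos hr hr' he2 he3)
    · exact Or.inr h) w hwm
  rw [Real.dist_eq, abs_lt]
  constructor <;> linarith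

/-- **The start** (3.7): the normalised maps converge to the identity. -/
theorem start_lim {ι : Type*} {l : Filter ι} {U : ι → Set ℂ} {f : ι → ℂ → ℂ}
    (hU : ∀ m, IsOpen (U m)) (hb : ∀ m, Bornology.IsBounded (U m)) (hcl : ∀ m, closure (U m) ⊆ UH)
    (hex : ∀ K : Set ℂ, IsCompact K → K ⊆ UH → ∀ᶠ m in l, K ⊆ U m)
    (hf : ∀ m, DifferentiableOn ℂ (f m) (U m)) (hm : ∀ m, MapsTo (f m) (U m) UH)
    (hn : ∀ᶠ m in l, ‖f m I‖ = 1)
    (hbd : ∀ ε > 0, ∀ᶠ m in l, ∀ ζ ∈ frontier (U m), ‖ζ‖ < 1 / ε → Bdry (U m) (f m) ε ζ) :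
    ∀ K : Set ℂ, IsCompact K → K ⊆ UH → ∀ ε > 0, ∀ᶠ m in l, ∀ z ∈ K, ‖f m z - z‖ ≤ ε := by
  intro K hK hKU ε hε
  change {m | ∀ z ∈ K, ‖f m z - z‖ ≤ ε} ∈ l
  rw [Filter.mem_iff_ultrafilter]
  intro φ hφ
  have hI : I ∈ UH := by rw [mem_UH]; simp
  -- a convex neighbourhood of `K` and `I`
  have hK' : IsCompact (insert I K) := hK.insert I
  have hKU' : insert I K ⊆ UH := insert_subset hI hKU
  obtain ⟨z1, hz1, hmin⟩ := hK'.exists_isMinOn (insert_nonempty I K) continuous_im.continuousOn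
  obtain ⟨B, hB0, hB⟩ := hK'.isBounded.exists_pos_norm_le
  set c := z1.im / 2 with hc
  have hc0 : 0 < c := half_pos (hKU' hz1)
  set V : Set ℂ := {z | c < z.im} ∩ ball 0 (B + 1) with hV
  have hVo : IsOpen V := (isOpen_lt continuous_const continuous_im).inter isOpen_ball
  have hVc : IsPreconnected V := ((convex_halfSpace_im_gt c).inter (convex_ball 0 (B + 1))).isPreconnected
  have hVU : V ⊆ UH := fun z hz => hc0.trans hz.1
  have hKV : insert I K ⊆ V := by
    intro z hz
    refine ⟨?_, ?_⟩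
    · have : z1.im ≤ z.im := hmin hz
      change c < z.im
      have := hKU' hz1
      rw [mem_UH] at this
      linarith
    · rw [mem_ball_zero_iff]
      linarith [hB z hz]
  have hIV : I ∈ V := hKV (mem_insert _ _)
  set C : Set ℂ := {z | c ≤ z.im} ∩ closedBall 0 (B + 1) with hC
  have hCc : IsCompact C :=
    (isCompact_closedBall _ _).inter_left (isClosed_le continuous_const continuous_im)
  have hCU : C ⊆ UH := fun z hz => hc0.trans_le hz.1
  have hVC : V ⊆ C := by
    intro z hz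
    have h1 : c < z.im := hz.1
    exact ⟨h1.le, ball_subset_closedBall hz.2⟩
  have hVm : ∀ᶠ m in (φ : Filter ι), V ⊆ U m := by
    have h1 : ∀ᶠ m in (φ : Filter ι), C ⊆ U m := hφ (hex C hCc hCU)
    exact h1.mono fun m hm => hVC.trans hm
  classical
  let F : ι → ℂ → ℂ := fun m => if V ⊆ U m then fun z => (f m z - I) / (f m z + I) else fun _ => 0
  have hden : ∀ z ∈ UH, z + I ≠ 0 := by
    intro z hz h
    have := congrArg Complex.im h
    simp at this
    rw [mem_UH] at hz
    linarith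
  have hcay : ∀ z ∈ UH, ‖(z - I) / (z + I)‖ ≤ 1 := by
    intro z hz
    rw [norm_div, div_le_one (norm_pos_iff.2 (hden z hz)), ← sq_le_sq₀ (norm_nonneg _)
      (norm_nonneg _), ← normSq_eq_norm_sq, ← normSq_eq_norm_sq, normSq_apply, normSq_apply]
    simp
    rw [mem_UH] at hz
    nlinarith
  have hFd : ∀ m, DifferentiableOn ℂ (F m) V := by
    intro m
    by_cases h : V ⊆ U m
    · simp only [F, if_pos h]
      exact ((hf m).mono h |>.sub_const _).div ((hf m).mono h |>.add_const _)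
        fun z hz => hden _ (hm m (h hz))
    · simp only [F, if_neg h]
      exact differentiableOn_const _
  have hFb : ∀ m, ∀ z ∈ V, ‖F m z‖ ≤ 1 := by
    intro m z hz
    by_cases h : V ⊆ U m
    · simp only [F, if_pos h]
      exact hcay _ (hm m (h hz))
    · simp only [F, if_neg h]
      simp
  obtain ⟨g, hg, hgd, hgb⟩ := montel φ hVo hFd hFb
  have hgt : ∀ z ∈ V, Tendsto (fun m => (f m z - I) / (f m z + I)) φ (𝓝 (g z)) := by
    intro z hz
    refine (hg.tendsto_at hz).congr' ?_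
    filter_upwards [hVm] with m h
    simp only [F, if_pos h]
  have harg : ∀ z ∈ V, Tendsto (fun m => arg (f m z)) φ (𝓝 (arg z)) := by
    intro z hz
    refine (arg_lim hU hb hcl hf hm hbd (hVU hz) ?_).mono_left hφ
    exact (hex {z} isCompact_singleton (by simpa using hVU hz)).mono fun m h => h (mem_singleton z)
  -- the value at `I`
  have hfI : Tendsto (fun m => f m I) φ (𝓝 I) := by
    have h1 : Tendsto (fun m => exp (arg (f m I) * I)) φ (𝓝 (exp (arg I * I))) := by
      have hcont : Continuous fun x : ℝ => exp (x * I) := by fun_prop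
      exact hcont.continuousAt.tendsto.comp (harg I hIV)
    have h2 : exp (arg I * I) = I := by
      have := norm_mul_exp_arg_mul_I I
      rwa [norm_I, ofReal_one, one_mul] at this
    rw [h2] at h1
    refine h1.congr' ?_
    filter_upwards [hφ hn] with m h
    have := norm_mul_exp_arg_mul_I (f m I)
    rwa [h, ofReal_one, one_mul] at this
  have hgI : g I = 0 := by
    have h1 : Tendsto (fun m => (f m I - I) / (f m I + I)) φ (𝓝 ((I - I) / (I + I))) :=
      (hfI.sub_const _).div (hfI.add_const _) (hden I hI)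
    rw [sub_self, zero_div] at h1
    exact tendsto_nhds_unique (hgt I hIV) h1
  have hglt : ∀ z ∈ V, ‖g z‖ < 1 := by
    intro z hz
    refine lt_of_le_of_ne (hgb z hz) fun h => ?_
    have hmax : IsMaxOn (norm ∘ g) V z := fun w hw => by
      simp only [mem_ofPred_eq, Function.comp_apply]
      rw [h]; exact hgb w hw
    have := Complex.norm_eqOn_of_isPreconnected_of_isMaxOn hVc hVo hgd hz hmax hIV
    simp only [Function.comp_apply, Function.const_apply] at this
    rw [hgI, h] at this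
    simp at this
  -- the limit
  set F0 : ℂ → ℂ := fun z => I * (1 + g z) / (1 - g z) with hF0
  have h1g : ∀ z ∈ V, 1 - g z ≠ 0 := by
    intro z hz h
    have := hglt z hz
    rw [← sub_eq_zero.1 h] at this
    simp at this
  have hinv : ∀ w ∈ UH, I * (1 + (w - I) / (w + I)) / (1 - (w - I) / (w + I)) = w := by
    intro w hw
    have h1 := hden w hw
    have h2 : (1 - (w - I) / (w + I)) = 2 * I / (w + I) := by field_simp; ring
    have h3 : (1 + (w - I) / (w + I)) = 2 * w / (w + I) := by field_simp; ring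
    rw [h2, h3]
    have hI0 : (I : ℂ) ≠ 0 := I_ne_zero
    field_simp
  have hlimF : ∀ z ∈ V, Tendsto (fun m => f m z) φ (𝓝 (F0 z)) := by
    intro z hz
    have h1 : Tendsto (fun m => I * (1 + (f m z - I) / (f m z + I)) /
        (1 - (f m z - I) / (f m z + I))) φ (𝓝 (F0 z)) :=
      (((hgt z hz).const_add 1).const_mul I).div ((hgt z hz).const_sub 1) (h1g z hz)
    refine h1.congr' ?_
    filter_upwards [hVm] with m h
    exact hinv _ (hm m (h hz))
  have hF0U : ∀ z ∈ V, F0 z ∈ UH := by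
    intro z hz
    have h1 : (F0 z).im = (1 - ‖g z‖ ^ 2) / normSq (1 - g z) := by
      simp only [hF0, div_im, ← normSq_eq_norm_sq, normSq_apply]
      simp
      ring
    rw [mem_UH, h1]
    have h2 := hglt z hz
    have h3 := normSq_pos.2 (h1g z hz)
    apply div_pos _ h3
    nlinarith [norm_nonneg (g z)]
  have hargF : ∀ z ∈ V, arg (F0 z) = arg z := by
    intro z hz
    exact tendsto_nhds_unique ((continuousAt_arg_UH (hF0U z hz)).tendsto.comp (hlimF z hz))
      (harg z hz)
  have hF0d : DifferentiableOn ℂ F0 V :=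
    ((hgd.const_add 1).const_mul I).div (hgd.const_sub 1) h1g
  have hV0 : ∀ z ∈ V, z ≠ 0 := by
    intro z hz h
    have := hVU hz
    rw [mem_UH, h] at this
    simp at this
  -- the quotient is real, hence constant
  have hreal : ∀ z ∈ V, F0 z / z = ((‖F0 z‖ / ‖z‖ : ℝ) : ℂ) := by
    intro z hz
    have h1 := norm_mul_exp_arg_mul_I (F0 z)
    have h2 := norm_mul_exp_arg_mul_I z
    rw [hargF z hz] at h1
    have h3 : (‖z‖ : ℂ) ≠ 0 := by exact_mod_cast norm_ne_zero_iff.2 (hV0 z hz)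
    have h4 : exp (arg z * I) ≠ 0 := exp_ne_zero _
    calc F0 z / z = (‖F0 z‖ * exp (arg z * I)) / (‖z‖ * exp (arg z * I)) := by rw [h1, h2]
      _ = ((‖F0 z‖ / ‖z‖ : ℝ) : ℂ) := by
        push_cast
        field_simp
  have hqd : DifferentiableOn ℂ (fun z => F0 z / z) V := hF0d.div differentiableOn_id hV0
  have hF0I : F0 I = I := by simp [hF0, hgI]
  have hconst : ∀ z ∈ V, F0 z = z := by
    have han : AnalyticOnNhd ℂ (fun z => F0 z / z) V := hqd.analyticOnNhd hVo
    rcases han.is_constant_or_isOpen hVc with ⟨w, hw⟩ | ho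
    · intro z hz
      have h1 : F0 I / I = w := hw I hIV
      have h2 : F0 z / z = w := hw z hz
      rw [hF0I, div_self I_ne_zero] at h1
      rw [← h1, div_eq_one_iff_eq (hV0 z hz)] at h2
      exact h2
    · exfalso
      have h1 : IsOpen ((fun z => F0 z / z) '' V) := ho V subset_rfl hVo
      obtain ⟨r, hr, hrV⟩ := Metric.isOpen_iff.1 h1 _ ⟨I, hIV, rfl⟩
      have hval : (fun z => F0 z / z) I = 1 := by
        change F0 I / I = 1
        rw [hF0I, div_self I_ne_zero]
      rw [hval] at hrV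
      have h2 : (1 + (r / 2 : ℝ) * I : ℂ) ∈ ball (1 : ℂ) r := by
        rw [mem_ball, dist_eq_norm]
        simp only [add_sub_cancel_left, norm_mul, norm_I, mul_one, norm_real, Real.norm_eq_abs]
        rw [abs_of_pos (by positivity)]
        linarith
      obtain ⟨z, hz, hz'⟩ := hrV h2
      simp only at hz'
      rw [hreal z hz] at hz'
      have := congrArg Complex.im hz'
      simp at this
      linarith
  have hgV : ∀ z ∈ V, g z = (z - I) / (z + I) := by
    intro z hz
    have h1 := hconst z hz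
    simp only [hF0] at h1
    rw [div_eq_iff (h1g z hz)] at h1
    rw [eq_div_iff (hden z (hVU hz))]
    linear_combination h1
  -- uniform convergence on `K`
  have hKV' : K ⊆ V := (subset_insert _ _).trans hKV
  have hunif : TendstoUniformlyOn F g φ K :=
    (tendstoLocallyUniformlyOn_iff_forall_isCompact hVo).1 hg K hKV' hK
  set c0 := 2 / (B + 1) with hc0'
  have hc00 : 0 < c0 := by positivity
  have hlow : ∀ z ∈ K, c0 ≤ ‖1 - g z‖ := by
    intro z hz
    have hzV := hKV' hz
    rw [hgV z hzV]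
    have h1 := hden z (hVU hzV)
    have h2 : (1 - (z - I) / (z + I)) = 2 * I / (z + I) := by field_simp; ring
    rw [h2, norm_div, norm_mul, norm_I, mul_one]
    have h3 : ‖(2 : ℂ)‖ = 2 := by simp
    rw [h3, hc0']
    apply div_le_div_of_nonneg_left (by norm_num) (norm_pos_iff.2 h1)
    refine (norm_add_le _ _).trans ?_
    rw [norm_I]
    linarith [hB z (mem_insert_of_mem _ hz)]
  set η := min (c0 / 2) (ε * c0 ^ 2 / 4) with hη
  have hη0 : 0 < η := by positivity
  have hev := Metric.tendstoUniformlyOn_iff.1 hunif η hη0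
  filter_upwards [hev, hVm] with m h1 h2 z hz
  have hzV := hKV' hz
  have h3 := h1 z hz
  simp only [F, if_pos h2] at h3
  set h := (f m z - I) / (f m z + I) with hh
  have h4 : ‖g z - h‖ < η := by rwa [dist_eq_norm] at h3
  have h5 : c0 / 2 ≤ ‖1 - h‖ := by
    have h6 := hlow z hz
    have h7 : ‖1 - g z‖ ≤ ‖1 - h‖ + ‖g z - h‖ := by
      have : 1 - g z = (1 - h) - (g z - h) := by ring
      rw [this]; exact norm_sub_le _ _
    have h8 : η ≤ c0 / 2 := min_le_left _ _
    linarith
  have e1 : f m z = I * (1 + h) / (1 - h) := (hinv _ (hm m (h2 hzV))).symm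
  have e2 : z = I * (1 + g z) / (1 - g z) := by
    have := hconst z hzV
    simp only [hF0] at this
    exact this.symm
  have h1h : 1 - h ≠ 0 := by
    intro h0
    rw [h0, norm_zero] at h5
    linarith
  have e3 : f m z - z = 2 * I * (h - g z) / ((1 - h) * (1 - g z)) := by
    have := h1g z hzV
    conv_lhs => rw [e1, e2]
    field_simp
    ring
  rw [e3, norm_div, norm_mul, norm_mul, norm_I, norm_mul]
  have h9 : ‖(2 : ℂ)‖ = 2 := by simp
  rw [h9, mul_one, norm_sub_rev]
  have h10 : c0 / 2 * c0 ≤ ‖1 - h‖ * ‖1 - g z‖ := by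
    have := hlow z hz
    gcongr
  rw [div_le_iff₀ (lt_of_lt_of_le (by positivity) h10)]
  have h11 : η ≤ ε * c0 ^ 2 / 4 := min_le_right _ _
  calc 2 * ‖g z - h‖ ≤ 2 * (ε * c0 ^ 2 / 4) := by linarith
    _ = ε * (c0 / 2 * c0) := by ring
    _ ≤ ε * (‖1 - h‖ * ‖1 - g z‖) := by gcongr

end Pool.Agent.H54.M7
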